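import Mathlib
import Pool.Agent.Helper18.EW.Goals4

/-!
# Project UW (MP_d3128a_ag): arbitrary multiplicities, `d ≥ C m_1 (1 + log m_1)³`

Definitions. Continuation of project EW (`Pool/Agent/Helper18/EW/Defs.lean`, `Goals.lean`, …). The rows
`0, …, R - 1` have the lengths `lam + 1 + y`. The ordinary points `c < N` have the multiplicities
`m c`: first arbitrary ones (`c < N0`, at most `M`), then the main points, `μ - δ ≤ m c ≤ μ`, increasing. The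
special points `i < K` have the multiplicities `ms i`, `μ - δ ≤ ms i ≤ μ`. A play with unequal multiplicities
is compared with a virtual play with equal multiplicities `μ`, in which a point of multiplicity `m c`
starts `μ - m c` rows earlier. Notation: `J = R - 1 - μ`, `w = R - 1 - y`.
-/

set_option autoImplicit false

namespace Pool.Agent.Helper18.UW

open Finset
open Pool.Agent.Lead.Sh
open Pool.Agent.Helper43.Hw (T na va lz Play aa ac sc oo sk U Dd Sd Pn nx bb np)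
open Pool.Agent.Helper43.Gm (Pri)
open Pool.Agent.Helper18.EW

/-- the parameters -/
structure Par4 (μ R K b l Lg q : ℕ) : Prop where
  l1 : 1 ≤ l
  R1 : 100 * μ ≤ R
  L1 : 1 ≤ Lg
  qL : q + 1 ≤ Lg
  hK : K = b * (q + 1)
  b1 : 2 ^ 42 * Lg ≤ b
  b2 : 2 ^ 33 * b * (q + 1) ^ 2 * l ≤ μ
  hL : 88 * μ < 2 ^ Lg * l

/-- as `EW.Zon`, with other constants -/
structure Zon4 (μ R N K b l Lg q β s : ℕ) (W : ℤ) (L o k D S n κ x : ℕ → ℕ) (y : ℕ) : Prop where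
  par : Par4 μ R K b l Lg q
  ext : Ext μ R N K b β s W L o k D S n
  play : Play μ R N κ x
  ex : Ex μ R N L κ x y
  sy : s ≤ y
  y2 : y + 2 ≤ R
  pau : Pau μ R s κ x
  hnp : ∀ X ≤ μ, l * np μ R N κ x X ≤ 160 * X + 3 * l
  hD : (R - 1 - y) ^ 2 * (b * l + (R - 1 - y)) ≤ 4096 * l * (Dd μ R κ x y + D y)
  w1 : 2 ^ 23 * μ ≤ (R - 1 - y) * (b * l + (R - 1 - y))
  w3 : 2 ^ 14 * l * |W| ≤ (((R - 1 - y) ^ 2 * (b * l + (R - 1 - y)) : ℕ) : ℤ)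
  ih : ∀ z, s ≤ z → z < y →
    b * l + (R - 1 - z) + 2 ^ 14 * l * (N - κ z) ≤ 2 ^ 14 * l * (β + o z + oo μ R κ x z)

/-- the special points; each of them satisfies `EW.Grp` with one point -/
structure UGrp (μ δ R K τ s E : ℕ) (ms e P : ℕ → ℕ) : Prop where
  t1 : 1 ≤ τ
  tJ : τ + 1 + μ ≤ R
  ts : τ + 2 ≤ s
  Js : R + δ < s + 1 + μ
  sR : s + 2 ≤ R
  mm : ∀ i < K, μ ≤ ms i + δ ∧ ms i ≤ μ ∧ 1 ≤ ms i
  e1 : ∀ i < K, 0 < e i ∧ e i ≤ E ∧ E ≤ 2 * e i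
  nd : ∀ i < K, ∀ t, τ ≤ t → t < s → ¬ e i ∣ P t
  dr : ∀ t, τ ≤ t → t + 1 < s → P (t + 1) + E ≤ P t
  ma : ∀ i < K, P (R - 1 - ms i) / e i < ms i

theorem UGrp.one {μ δ R K τ s E : ℕ} {ms e P : ℕ → ℕ} (h : UGrp μ δ R K τ s E ms e P) {i : ℕ}
    (hi : i < K) : Grp (ms i) R 1 τ s E (fun _ => e i) P := by
  have := h.mm i hi
  have := h.tJ
  have := h.Js
  exact ⟨h.t1, by omega, h.ts, by omega, h.sR, fun _ _ => h.e1 i hi, fun _ _ => h.nd i hi, h.dr,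
    fun _ _ => h.ma i hi⟩

/-- the load of the row `z` by the special points -/
def uV (R K τ s : ℕ) (ms e P : ℕ → ℕ) (z : ℕ) : ℕ :=
  ∑ i ∈ range K, gV (ms i) R 1 τ s (fun _ => e i) P z

/-- number of special points alive at the row `y` (old) -/
def uO (R K τ s : ℕ) (ms e P : ℕ → ℕ) (y : ℕ) : ℕ :=
  ∑ i ∈ range K, gO (ms i) R 1 τ s (fun _ => e i) P y

/-- number of skips of the special points between the rows `y` and `y + 1` -/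
def uK (K τ s : ℕ) (ms e P : ℕ → ℕ) (y : ℕ) : ℕ :=
  ∑ i ∈ range K, gK (ms i) 1 τ s (fun _ => e i) P y

/-- `Dd` for the special points -/
def uD (R K τ s : ℕ) (ms e P : ℕ → ℕ) (y : ℕ) : ℕ :=
  ∑ i ∈ range K, gD (ms i) R 1 τ s (fun _ => e i) P y

/-- `Sd` for the special points -/
def uS (R K τ s : ℕ) (ms e P : ℕ → ℕ) (y : ℕ) : ℕ :=
  ∑ i ∈ range K, gS (ms i) R 1 τ s (fun _ => e i) P y

/-- number of the special points started in the last `X` rows before they get natural values -/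
def uN (R K τ s : ℕ) (ms e P : ℕ → ℕ) (X : ℕ) : ℕ :=
  ∑ i ∈ range K, gN (ms i) R 1 τ s (fun _ => e i) P X

/-- number of the skips of the special points at distance `≤ w` from the last row -/
def uQ (R K τ s : ℕ) (ms e P : ℕ → ℕ) (w : ℕ) : ℕ :=
  ∑ i ∈ range K, gQ (ms i) R 1 τ s (fun _ => e i) P w

/-- a play with unequal multiplicities -/
structure UPlay (m : ℕ → ℕ) (R N : ℕ) (κ x : ℕ → ℕ) : Prop where
  mono : ∀ y, y + 1 < R → κ y ≤ κ (y + 1)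
  le : ∀ y < R, κ y ≤ N
  lt : ∀ y, y + 1 < R → κ y < N → x y < m (κ y)
  nat : ∀ y < R, κ y < N → na (m (κ y)) R y ≤ x y
  fin : ∀ y < R, κ y = N → x y = 0
  inc : ∀ y, y + 1 < R → 0 < x y → κ (y + 1) = κ y → x y < x (y + 1)
  lastκ : κ (R - 1) = κ (R - 2)
  lastx : κ (R - 1) < N → x (R - 1) = m (κ (R - 1))

/-- the load of the row `z` -/
def uz (m : ℕ → ℕ) (R N : ℕ) (κ x : ℕ → ℕ) (z : ℕ) : ℕ := ∑ c ∈ range N, va (m c) R κ x c z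

/-- the beginning of an unequal play, on the rows `0, …, Y` -/
structure UPre (m : ℕ → ℕ) (R N Y : ℕ) (κ x : ℕ → ℕ) : Prop where
  mono : ∀ y < Y, κ y ≤ κ (y + 1)
  le : ∀ y ≤ Y, κ y ≤ N
  lt : ∀ y ≤ Y, κ y < N → x y < m (κ y)
  nat : ∀ y ≤ Y, ∀ c, κ y ≤ c → c < N → na (m c) R y = 0
  fin : ∀ y ≤ Y, κ y = N → x y = 0
  inc : ∀ y < Y, 0 < x y → κ (y + 1) = κ y → x y < x (y + 1)

/-- the point `c` of an unequal play as a play with one point: `κ` -/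
def uk (κ : ℕ → ℕ) (c y : ℕ) : ℕ := if κ y ≤ c then 0 else 1

/-- the point `c` of an unequal play as a play with one point: `x` -/
def ux (m : ℕ → ℕ) (R : ℕ) (κ x : ℕ → ℕ) (c y : ℕ) : ℕ :=
  if κ y < c then na (m c) R y else if κ y = c then x y else 0

/-- number of the old points alive at the row `y` -/
def uo (m : ℕ → ℕ) (R : ℕ) (κ x : ℕ → ℕ) (y : ℕ) : ℕ :=
  ((range (κ y)).filter (fun c => 0 < va (m c) R κ x c y)).card

/-- number of the skips of old points between the rows `y` and `y + 1` -/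
def us (m κ x : ℕ → ℕ) (y : ℕ) : ℕ :=
  ((range y).filter (fun t => κ t < κ y ∧ 0 < x t ∧ m (κ t) + t = x t + y)).card

/-- the hypotheses of the window theorem after the choice of the numbers -/
structure Su (m ms : ℕ → ℕ) (M μ δ R N0 N K b l Lg q v lam : ℕ) (W : ℤ) : Prop where
  par : Par4 μ R K b l Lg q
  d1 : 20 * δ ≤ 2 ^ q * v
  lo : 4 * μ ^ 2 ≤ l * R
  hi : l * R ≤ 32 * μ ^ 2
  v1 : 1 ≤ v
  vb : 1280 * (2 ^ q * v) ≤ b * l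
  vc : b * l ≤ 2560 * (2 ^ q * v)
  μM : μ ≤ M
  RM : 2 ^ 30 * M ≤ R
  la : 200 * lam ≤ R
  hW : |W| ≤ 2 * R
  NN : N0 ≤ N
  pre : ∀ c < N0, 1 ≤ m c ∧ m c ≤ M
  main : ∀ c, N0 ≤ c → c < N → μ ≤ m c + δ ∧ m c ≤ μ
  mono : ∀ c c', N0 ≤ c → c ≤ c' → c' < N → m c ≤ m c'
  spec : ∀ i < K, μ ≤ ms i + δ ∧ ms i ≤ μ
  tot : ∑ z ∈ range R, ((lam + 1 + z : ℕ) : ℤ) =
    ∑ c ∈ range N, (T (m c) : ℤ) + ∑ i ∈ range K, (T (ms i) : ℤ) + W
  pa : ∑ c ∈ range N0, T (m c) < ∑ z ∈ range (R - 60 * M), (lam + 1 + z)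

/-- the real play stopped at the row `τ` (`J - v1 < τ ≤ J - v1 + l`, `v1 = 2 ^ q * v`): the rows before `τ` are
exactly filled, a point becomes old at `τ`, afterwards nobody is moving -/
structure Rp (m : ℕ → ℕ) (M μ R N0 N l q v lam τ : ℕ) (κ x : ℕ → ℕ) : Prop where
  play : UPlay m R N κ x
  t1 : R - 1 - μ < τ + 2 ^ q * v
  t2 : τ + 2 ^ q * v ≤ R - 1 - μ + l
  ex : ∀ z < τ, uz m R N κ x z = lam + 1 + z
  t0 : uz m R N κ x τ ≤ lam + 1 + τ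
  t3 : lam + 1 + τ < uz m R N κ x τ + μ
  g1 : κ (τ - 1) < κ τ
  g2 : κ τ < N
  pa : ∀ y, τ ≤ y → y < R → κ y = κ τ ∧ x y = na (m (κ τ)) R y
  n0 : N0 ≤ κ (R - 60 * M)

/-- the virtual play: `κ` (`g = κ τ`; the points `N1, …, g - 1`) -/
def vk (m : ℕ → ℕ) (μ R N1 g : ℕ) (κ : ℕ → ℕ) (y : ℕ) : ℕ :=
  ((Ico N1 g).filter (fun c => sc R κ c + m c ≤ y + μ)).card

/-- the virtual play: `x` -/
def vx (m : ℕ → ℕ) (μ R N1 g : ℕ) (κ x : ℕ → ℕ) (y : ℕ) : ℕ :=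
  if N1 + vk m μ R N1 g κ y < g then
    (if κ (y + μ - m (N1 + vk m μ R N1 g κ y)) = N1 + vk m μ R N1 g κ y then
      x (y + μ - m (N1 + vk m μ R N1 g κ y)) else 0)
  else na μ R y

/-- what the points which have not started give more in the virtual play -/
def vd (m : ℕ → ℕ) (μ R g N : ℕ) (y : ℕ) : ℕ :=
  ∑ c ∈ Ico g N, min (μ - m c) (y + 1 + μ - R)

/-- the virtual lengths -/
def vl (m : ℕ → ℕ) (μ R N1 g N lam τ : ℕ) (κ x : ℕ → ℕ) (y : ℕ) : ℕ :=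
  if y < τ then lz μ R (N - N1) (vk m μ R N1 g κ) (vx m μ R N1 g κ x) y
  else lam + 1 + y + vd m μ R g N y

/-- the virtual play, stopped at `τ` for ever -/
structure Vp (μ δ R N K b l Lg q v τ : ℕ) (S W : ℤ) (ℓ κ x : ℕ → ℕ) : Prop where
  par : Par4 μ R K b l Lg q
  d1 : 20 * δ ≤ 2 ^ q * v
  lo : 4 * μ ^ 2 ≤ l * R
  hi : l * R ≤ 32 * μ ^ 2
  v1 : 1 ≤ v
  vb : 1280 * (2 ^ q * v) ≤ b * l
  vc : b * l ≤ 2560 * (2 ^ q * v)
  t1 : R - 1 - μ < τ + 2 ^ q * v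
  t2 : τ + 2 ^ q * v ≤ R - 1 - μ + l
  play : Play μ R N κ x
  ex : ∀ z < τ, lz μ R N κ x z = ℓ z
  t0 : lz μ R N κ x τ ≤ ℓ τ
  t3 : ℓ τ < lz μ R N κ x τ + μ
  g2 : κ τ < N
  pa : ∀ y, τ ≤ y → y < R → κ y = κ τ ∧ x y = na μ R y
  i0 : ∀ y, τ ≤ y → y + 1 + μ < R → ℓ (y + 1) = ℓ y + 1
  i1 : ∀ y, R ≤ y + 1 + μ → y + 1 < R → ℓ y + 1 ≤ ℓ (y + 1) ∧ ℓ (y + 1) ≤ ℓ y + 1 + (N - κ τ)
  i2 : ∀ y, R + δ ≤ y + 1 + μ → y + 1 < R → ℓ (y + 1) = ℓ y + 1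
  ll : ∀ y, τ ≤ y → y < R → 9 * R ≤ 10 * ℓ y ∧ 10 * ℓ y ≤ 11 * R
  un : l * (N - κ τ) ≤ 140 * μ
  oa : 10 * μ * oo μ R κ x τ ≤ 42 * R + 10 * μ
  su : ∀ z z', R ≤ z + 50 * μ → z ≤ z' → z' ≤ τ →
    l * (aa κ x z' - aa κ x z) ≤ 160 * (z' - z) + 3 * l
  dd : ∀ y, τ ≤ y → y < R → 16 * (2 ^ q * v) < R - 1 - y →
    (R - 1 - y) ^ 3 ≤ 8 * l * Dd μ R κ x y
  tot : ∑ z ∈ range R, (ℓ z : ℤ) = N * T μ + S + W

/-- the real play obtained from a virtual one which agrees with the stopped one before `s`: `κ` -/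
def bk (s N1 : ℕ) (κ2 κ : ℕ → ℕ) (y : ℕ) : ℕ := if y < s then κ2 y else κ y + N1

/-- the same: `x` (`N'` is the number of the points of the virtual play) -/
def bx (m : ℕ → ℕ) (μ s N1 N' : ℕ) (x2 κ x : ℕ → ℕ) (y : ℕ) : ℕ :=
  if y < s then x2 y else if κ y < N' then x y - (μ - m (N1 + κ y)) else 0

/-- the expected result -/
def OkU (D : Finset (ℕ × ℕ)) (m : ℕ → ℕ) (s : Finset ℕ) : Prop :=
  (∑ k ∈ s, (m k + 1).choose 2 ≤ D.card ∧ Ind D (rows m s)) ∨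
    (D.card ≤ ∑ k ∈ s, (m k + 1).choose 2 ∧ Inj D (rows m s))

end Pool.Agent.Helper18.UW
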