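import Mathlib
import Pool.Agent.Helper18.UW.Defs
import Pool.Agent.Helper18.SG.Goals2

/-!
# Project UW: intermediate statements (packets), the frame of the proof (no game here)

Every packet: create `Pool/Agent/<You>/UW/<Name>.lean` with `theorem goalX : GoalX` (goals used are
hypotheses). `t(S) = ∑_{k ∈ S} C(m k + 1, 2)` in the comments, `T_k = C(k + 1, 2)`, so that
`(triD 0 d).card = T_(d+1)`, `2 (triZ d h).card + (d + 1 - h) (d + 2 - h) = (d + 1) (d + 2)` (`EW.GoalF1Z` with `p = 1`, proved),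
`triZ d (d + 1) = triD 0 d`, `(rows m S).card = t(S)` (`card_rows`), `T_k ≤ k²` for `k ≥ 1`. Useful:
`subtotal` (Helper43/Ah/Good.lean), `Inj.mono`, `rows_congr`, `InjAt.ind`.
-/

set_option autoImplicit false

namespace Pool.Agent.Helper18.UW

open Finset
open Pool.Agent.Lead.Sh
open Pool.Agent.Helper43.Hw (T)
open Pool.Agent.Helper43.Gm (Pri SS Run cl)
open Pool.Agent.Helper18.EW

/-- `Lg` -/
def lg (M : ℕ) : ℕ := Nat.log 2 M + 10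

/-- the core statement: almost as many conditions as monomials -/
def CoreC : Prop := ∀ (A : Finset ℕ) (m : ℕ → ℕ) (M d : ℕ), (∀ k ∈ A, 1 ≤ m k ∧ m k ≤ M) →
  1 ≤ M → 2 ^ 400 * lg M ^ 3 * M ≤ d → (d + 2).choose 2 ≤ ∑ k ∈ A, (m k + 1).choose 2 →
  ∑ k ∈ A, (m k + 1).choose 2 ≤ (d + 2).choose 2 + M → Inj (triD 0 d) (rows m A)

/-- Red (reduction to `CoreC`). `M = m 0`. If `M = 0` all `m k = 0`, `rows m (range s) = ∅`, first alternative (`Ind` is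
trivial). Let `M ≥ 1`. If `t(range s) ≤ T_(d+1)`: `f = T_(d+1) - t`, `m' = m` on `range s`, `m' k = 1` for `k ≥ s`,
`A = {k < s : 1 ≤ m k} ∪ Ico s (s + f)`, so `t'(A) = T_(d+1)`; `CoreC` gives `Inj`, the matrix is square, so `Ind`
(`InjAt.ind`), then `Ind.mono`, `rows_congr`. If `T_(d+1) < t(range s)`: there is `m' ≤ m` (pointwise) with
`T_(d+1) ≤ t'(range s) ≤ T_(d+1) + M` (induction on `∑ m k`: if `t > T_(d+1) + M` lower some `m k ≥ 1` by one, `t` decreases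
by `m k ≤ M`); apply `CoreC` to `{k < s : 1 ≤ m' k}`, then `Inj.mono` (`rows m' _ ⊆ rows m (range s)`). -/
def GoalRed : Prop := CoreC → ∀ (s : ℕ) (m : ℕ → ℕ) (d : ℕ), Antitone m → (∀ i, s ≤ i → m i = 0) →
  2 ^ 400 * lg (m 0) ^ 3 * m 0 ≤ d → OkU (triD 0 d) m (range s)

/-- UFin (the main theorem). `Nat.log 2 M + 10 ≤ 10 (1 + log M)` for `M ≥ 1` (`log 2 > 0.69`), so `C = 2^400 * 1000`; then
`Pool.Agent.Lead.Rw.concl`. (`m 0 = 0`: the hypothesis `2^400 * lg 0 ^ 3 * 0 ≤ d` is trivial.) -/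
def GoalUFin : Prop :=
  (∀ (s : ℕ) (m : ℕ → ℕ) (d : ℕ), Antitone m → (∀ i, s ≤ i → m i = 0) →
    2 ^ 400 * lg (m 0) ^ 3 * m 0 ≤ d → OkU (triD 0 d) m (range s)) →
  ∃ C : ℝ, 0 < C ∧ ∀ (s : ℕ) (m : ℕ → ℕ) (d : ℕ), Antitone m → (∀ i, s ≤ i → m i = 0) →
    C * m 0 * (1 + Real.log (m 0)) ^ 3 ≤ d →
    ∃ G : MvPolynomial (Fin s × Fin 3) ℂ, G ≠ 0 ∧
      ∀ P : Fin s → Fin 3 → ℂ, (∀ i, P i ≠ 0) →
        MvPolynomial.eval (fun ij : Fin s × Fin 3 => P ij.1 ij.2) G ≠ 0 →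
        (Module.finrank ℂ
          (↥(MvPolynomial.homogeneousSubmodule (Fin 3) ℂ d ⊓
            ⨅ i : Fin s, Submodule.restrictScalars ℂ
              ((Ideal.span {g : MvPolynomial (Fin 3) ℂ |
                  g.IsHomogeneous 1 ∧ MvPolynomial.eval (P i) g = 0}) ^ (m (i : ℕ))
                : Ideal (MvPolynomial (Fin 3) ℂ)))) : ℤ)
          = max ((Nat.choose (d + 2) 2 : ℤ) -
              ∑ i : Fin s, (Nat.choose (m (i : ℕ) + 1) 2 : ℤ)) 0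

/-- Case I: a narrow cluster of multiplicities has a large area -/
def CaseI : Prop := ∀ (A : Finset ℕ) (m : ℕ → ℕ) (M μ δ d : ℕ), (∀ k ∈ A, 1 ≤ m k ∧ m k ≤ M) →
  2 ^ 400 * lg M ^ 3 * M ≤ d → μ ≤ M → d < 28 * μ ^ 2 → 2 ^ 60 * lg M ^ 2 * δ ≤ μ →
  1000 * M * (d + 1) ≤ ∑ k ∈ A.filter (fun k => μ ≤ m k + δ ∧ m k ≤ μ), (m k + 1).choose 2 →
  (d + 2).choose 2 ≤ ∑ k ∈ A, (m k + 1).choose 2 →
  ∑ k ∈ A, (m k + 1).choose 2 ≤ (d + 2).choose 2 + M → Inj (triD 0 d) (rows m A)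

/-- Case II: the points with `28 (m k)² > d` have a small area -/
def CaseII : Prop := ∀ (A : Finset ℕ) (m : ℕ → ℕ) (M d : ℕ), (∀ k ∈ A, 1 ≤ m k ∧ m k ≤ M) →
  1 ≤ M → 2 ^ 400 * lg M ^ 3 * M ≤ d →
  10 ^ 6 * ∑ k ∈ A.filter (fun k => d < 28 * m k ^ 2), (m k + 1).choose 2 < d ^ 2 →
  (d + 2).choose 2 ≤ ∑ k ∈ A, (m k + 1).choose 2 →
  ∑ k ∈ A, (m k + 1).choose 2 ≤ (d + 2).choose 2 + M → Inj (triD 0 d) (rows m A)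

/-- Pig (pigeonhole). `L = lg M`, `A' = {k ∈ A : d < 28 (m k)²}`. For `k ∈ A'` let `j = Nat.log 2 (m k) < L`,
`δ_j = 2^j / (2^60 L²)`, `i = (m k - 2^j) / (δ_j + 1) ≤ 2^60 L²` (since `2^j ≤ (2^60 L² ) (δ_j + 1)`). Two points with the same `(j, i)` have
multiplicities which differ by at most `δ_j`. There are at most `L (2^60 L² + 1) ≤ 2^61 L³` classes; if all of them had an
area `< 1000 M (d + 1)`, then `d² ≤ 10^6 t(A') < 10^6 * 2^61 L³ * 1000 M (d + 1) ≤ 2^92 L³ M * 2 d ≤ d²` (`2^400 L³ M ≤ d`), a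
contradiction. For a class with area `≥ 1000 M (d + 1) > 0` let `μ` be its largest multiplicity, `δ = δ_j`: `μ ≤ M`,
`d < 28 μ²`, `2^60 L² δ ≤ 2^j ≤ μ`, all its points satisfy `μ ≤ m k + δ`, `m k ≤ μ`. -/
def GoalPig : Prop := ∀ (A : Finset ℕ) (m : ℕ → ℕ) (M d : ℕ), (∀ k ∈ A, 1 ≤ m k ∧ m k ≤ M) →
  1 ≤ M → 2 ^ 400 * lg M ^ 3 * M ≤ d →
  d ^ 2 ≤ 10 ^ 6 * ∑ k ∈ A.filter (fun k => d < 28 * m k ^ 2), (m k + 1).choose 2 →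
  ∃ μ δ : ℕ, μ ≤ M ∧ d < 28 * μ ^ 2 ∧ 2 ^ 60 * lg M ^ 2 * δ ≤ μ ∧
    1000 * M * (d + 1) ≤ ∑ k ∈ A.filter (fun k => μ ≤ m k + δ ∧ m k ≤ μ), (m k + 1).choose 2

/-- the window theorem for the points of a set `A`, a narrow cluster of which has a large area -/
def FUc : Prop := ∀ (A : Finset ℕ) (m : ℕ → ℕ) (M μ δ Lg d h W : ℕ),
  (∀ k ∈ A, 1 ≤ m k ∧ m k ≤ M) → μ ≤ M → 128 * μ ≤ 2 ^ Lg → 1 ≤ h → h ≤ d + 1 →
  200 * (d + 1 - h) ≤ h → 2 ^ 120 * Lg ^ 3 * M ≤ h → h ≤ 28 * μ ^ 2 → 2 ^ 60 * Lg ^ 2 * δ ≤ μ →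
  |((triZ d h).card : ℤ) - ∑ k ∈ A, ((m k + 1).choose 2 : ℤ)| = W → W ≤ 2 * h →
  2 ^ 80 * Lg ^ 2 * h ≤ μ * W →
  62 * M * (d + 1) ≤ ∑ k ∈ A.filter (fun k => μ ≤ m k + δ ∧ m k ≤ μ), (m k + 1).choose 2 →
  OkU (triZ d h) m A

/-- iterated differences -/
noncomputable def Df : List ℝ → (ℝ → ℝ) → ℝ → ℝ
  | [], f, x => f x
  | (h :: hs), f, x => Df hs f (x + h) - Df hs f x

/-- MV (mean value theorem for iterated differences of a power). Induction on `hs`, for all `α`, `x`. First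
(another induction): if `f` has the derivative `f'` on `(0, ∞)` then `y ↦ Df hs f y` has the derivative `Df hs f' y` at `y > 0`
(`hs` positive). `Df (h :: hs) f x = φ (x + h) - φ x`, `φ y = Df hs f y`, is `h φ' (y1)`, `x ≤ y1 ≤ x + h`, and for
`f = t^α` `φ' y1 = α * Df hs (t^(α-1)) y1`; the induction hypothesis for `α - 1`, `y1` gives `ξ ∈ [y1, y1 + hs.sum]`, and
`α ∏_{j < n} (α - 1 - j) = ∏_{j < n + 1} (α - j)`. -/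
def GoalMV : Prop := ∀ (hs : List ℝ) (α x : ℝ), (∀ h ∈ hs, 0 < h) → 0 < x →
  ∃ ξ, x ≤ ξ ∧ ξ ≤ x + hs.sum ∧
    Df hs (fun t => t ^ α) x =
      hs.prod * (∏ j ∈ range hs.length, (α - j)) * ξ ^ (α - hs.length)

/-- SELa (parity). By induction on `hs` (for all `x`): there is an integer `n` with
`|Df hs √ x - (2 n + c)| ≤ 2^(length) ε`, `c = 1` for `hs = []`, `c = 0` otherwise (a difference of two odd numbers, or of two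
even numbers, is even). The sublists of `h :: hs` are the sublists `l` of `hs` and the `h :: l`
(`√(x + (h :: l).sum) = √((x + h) + l.sum)`). -/
def GoalSELa : Prop := ∀ (hs : List ℝ) (x ε : ℝ), hs ≠ [] →
  (∀ l : List ℝ, l.Sublist hs → ∃ n : ℤ, |Real.sqrt (x + l.sum) - (2 * n + 1)| ≤ ε) →
  ∃ n : ℤ, |Df hs Real.sqrt x - 2 * n| ≤ 2 ^ hs.length * ε

/-- `∏_{j < k} |1/2 - j|` -/
noncomputable def cc (k : ℕ) : ℝ := ∏ j ∈ range k, |(1 / 2 : ℝ) - j|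

/-- SELb (choice of the order `k` of the differences and of the size `g` of two blocks). Let `ρ = μ² / s1²` (`≤ 2^(-400) / L^6`),
`D_k = 2 s1 ρ^k cc k`: `D_1 = μ² / s1 ≥ 10`, `D_(k+1) = D_k ρ (k - 1/2)`, so `D_(k+1) ≤ 2^(-390) D_k` for `1 ≤ k ≤ Lg`. As
`2 s1 ≤ μ² ≤ 2^(2 Lg)` there is a least `k ≥ 2` with `D_k ≤ 1/4`, and `D_(k-1) > 1/4`; from `1/4 < D_(k-1) ≤ 2^(-390 (k-2)) D_1`,
`D_1 ≤ μ²`: `2^(390 (k-2)) < 4 μ²`, which gives `k ≤ Lg` and `2^(100 k) ≤ 2^300 μ` (and more). `g` is the integral part of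
`√(1/(2 D_k)) ≥ √2`: `g² D_k ≤ 1/2 < (g+1)² D_k ≤ 4 g² D_k`. `D_k ≥ D_(k-1) ρ > ρ/4` (`k - 3/2 ≥ 1/2`: `D_k ≥ ρ/8`), so `g ≤ 2 s1 / μ`. -/
def GoalSELb : Prop := ∀ μ s1 Lg : ℕ, 1 ≤ μ → 1 ≤ Lg → 2 ^ 200 * Lg ^ 3 * μ ≤ s1 →
  10 * s1 ≤ μ ^ 2 → 128 * μ ≤ 2 ^ Lg →
  ∃ k g : ℕ, 2 ≤ k ∧ k ≤ Lg ∧ 2 ^ (100 * k) ≤ 2 ^ 300 * μ ∧ 1 ≤ g ∧ g * μ ≤ 2 * s1 ∧
    1 / 8 < (g : ℝ) ^ 2 * (2 * s1 * ((μ : ℝ) ^ 2 / s1 ^ 2) ^ k * cc k) ∧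
    (g : ℝ) ^ 2 * (2 * s1 * ((μ : ℝ) ^ 2 / s1 ^ 2) ^ k * cc k) ≤ 1 / 2

/-- the selection lemma -/
def SELc : Prop := ∀ (A0 F : Finset ℕ) (m : ℕ → ℕ) (μ δ Lg s1 W0 : ℕ), Disjoint A0 F →
  (∀ k ∈ F, μ ≤ m k + δ ∧ m k ≤ μ) → s1 ^ 2 ≤ 2 * ∑ k ∈ A0, (m k + 1).choose 2 →
  2 * ∑ k ∈ A0, (m k + 1).choose 2 ≤ (s1 + 1) ^ 2 → 1 ≤ μ → 1 ≤ Lg → 2 ^ 200 * Lg ^ 3 * μ ≤ s1 →
  10 * s1 ≤ μ ^ 2 → 128 * μ ≤ 2 ^ Lg → 2 ^ 60 * Lg ^ 2 * δ ≤ μ → 6 * s1 ≤ μ * F.card →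
  μ * W0 ≤ 2 ^ 100 * Lg ^ 2 * s1 →
  ∃ (J : Finset ℕ) (s : ℕ), J ⊆ F ∧ 1 ≤ s ∧
    s * (s - 1) + 2 * W0 ≤ 2 * ∑ k ∈ A0 ∪ J, (m k + 1).choose 2 ∧
    2 * ∑ k ∈ A0 ∪ J, (m k + 1).choose 2 + 2 * W0 ≤ s * (s + 1)

/-- SEL. Let `t i = 8 C(m i + 1, 2) = 4 m i (m i + 1)`, `x = 8 t(A0) + 1`, so `4 s1² ≤ x ≤ 4 (s1+1)² + 1`. `k`, `g` from SELb; `F` has
`2 g + k - 2` points (`g ≤ 2 s1/μ`, `k ≤ Lg ≤ s1/μ`); let `hs` be the list of the sums of `t` over two disjoint blocks of `g`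
points and of `k - 2` further single values. Put `ε = 8 W0 / s1` (if `W0 = 0` replace it by `1`). Suppose that for all
unions `J` of blocks `√(x + ∑_J t)` is at distance `≤ ε` from an odd integer. SELa: `Df hs √ x` is within `2^k ε` of an even
integer. MV (`α = 1/2`): `|Df hs √ x| = hs.prod * cc k * ξ^(1/2 - k)`. Here `4 (μ - δ)² ≤ t i ≤ 4 (μ+1)²`, so `hs.prod` is
`g² (4 μ²)^k` up to a factor in `[(1 - 2^(-50))…]`: every factor is `(1 + O(δ/μ + 1/μ))`, `k ≤ Lg`, `2^60 Lg² δ ≤ μ`; and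
`ξ = 4 s1² (1 + η)`, `0 ≤ η ≤ 3/s1 + (2 g + k) (μ+1)²/s1² ≤ 2^(-190)/Lg²` (`g μ ≤ 2 s1`), so `ξ^(1/2 - k) = (2 s1)^(1 - 2k) (1 + …)`; hence
`|Df| ∈ (1/9, 5/8)`. But `2^k ε ≤ 1/16`: `W0/s1 ≤ 2^100 Lg²/μ`, `2^k ≤ 2^3 μ^(1/100)`, `μ ≥ 2^200 Lg³` (`2^200 Lg³ μ ≤ s1 ≤ μ²`):
contradiction. So for some union `J` of blocks, `c = t(A0 ∪ J)`, `√(8 c + 1)` is at distance `> ε` from all odd integers. Let
`s ≥ 1` be the integer with `2 s - 1 ≤ √(8 c + 1) < 2 s + 1`. `8 c + 1 - (2s-1)² ≥ ε * 2 (2 s - 1)` and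
`(2s+1)² - (8 c + 1) ≥ ε (4 s - 2)`; as `2 s + 1 > 2 s1`, these are `≥ 8 W0 (4 s - 2)/s1 ≥ 8 W0`, and
`8 c + 1 - (2s-1)² = 8 (c - s (s-1)/2)`, `(2s+1)² - (8c+1) = 8 (s (s+1)/2 - c)`. -/
def GoalSEL : Prop := GoalMV → GoalSELa → GoalSELb → SELc

/-- CI (Case I). `L = lg M`, so `128 μ ≤ 2^L`. `Cl` = the cluster. `W1 = (2^80 L² (d+1)) / μ + 1` (natural division), so
`2^80 L² (d+1) ≤ μ W1`. If `t(A) - T_(d+1) ≥ W1`: FUc with `h = d + 1`, all the points (`W ≤ M ≤ 2 h`), second alternative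
(`T_(d+1) < t(A)`). Let `t(A) - T_(d+1) < W1`, `W0 = 2 W1 + 2`. By `subtotal` choose disjoint `CA`, `CB ⊆ Cl` with
`62 M (d+1) ≤ t(CA), t(CB) ≤ 62 M (d+1) + M²`, then `F ⊆ Cl \ (CA ∪ CB)` with `F.card = (6 d) / μ + 1` (possible: the rest of
`Cl` has area `≥ 870 M (d+1)`, every point at most `μ²`; `t(F) ≤ 7 d μ`… `≤ 7 M (d + 1)`), and `U` disjoint from `CA`, `CB`, `F` with
`D0² ≤ 2 t(U) ≤ D0² + 2 M²`, `D0 = d/300` (the rest has area `≥ d²/2 - 140 M (d+1) ≥ d²/4`). `A0 = CA ∪ U`,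
`s1 = Nat.sqrt (2 t(A0))`: `d / 301 ≤ s1 ≤ d / 299` (`M (d + 1)` is tiny compared with `d²`). SELc (`10 s1 ≤ μ²` as `d < 28 μ²`;
`μ W0 ≤ 2^82 L² (d + 1) + 4 μ ≤ 2^100 L² s1`) gives `J`, `s`; `A' = A0 ∪ J`, `B = A \ A'`; `d/302 ≤ s ≤ d/298` (`t(J) ≤ 7 M (d+1)`).
Let `wA = T_s - t(A') ≥ W0`, `t(A') - T_(s-1) = s - wA ≥ W0`. GLc with `e = s - 1`, points `A'`, `B`. The four hypotheses
by FUc (`200 s ≤ d + 1 - s`; `2^120 L³ M ≤ s`; the area of the cluster: `CA ⊆ A'`, `CB ⊆ B`):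
`triD 0 (s-1) = triZ (s-1) s`: `T_s - t(A') = wA`; `triD 0 (s-2)`: `t(A') - T_(s-1) = s - wA`; `triZ d (d - s + 2)`:
card `- t(B) = (s - wA) - (t(A) - T_(d+1)) ≥ W0 - W1 ≥ W1`; `triZ d (d - s + 1)`: `t(B) -` card `= wA + (t(A) - T_(d+1)) ≥ W0`. All these
numbers are positive, `≤ 2 h`, which decides the alternative of OkU. -/
def GoalCI : Prop := FUc → SELc → GLc → GoalF1Z → CaseI

/-- D2 (the greedy game with two bounds). As `Gm.GoalD` (`Pool/Agent/Helper43/Gm/D.lean`, theorem `game`), with the bound `M` on the rows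
before `J` and the bound `m0` afterwards. On the rows `y < J` (no bad rows) all the rows are exactly filled:
`SS y = ℓ y`. As `∑_{y < J - M} ℓ y = ∑_{c ≤ κ (J-M-1)} (part of c) ≤ ∑_{c ≤ κ (J - M - 1)} T_(ν c)`, the hypothesis on the
area gives `c0 ≤ κ (J - M - 1)` (if `κ (J-M-1) < c0` the right side is `≤ ∑_{c < c0}`; a point gives at most `T_(ν c)` in
total: extend the run by `run_ext` of E.lean, use `GoalC`), so all the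
points `c < c0` are old at `J - M - 1` and give nothing to the rows `≥ J - 1`. From the row `J - 1` on every point which matters has
`ν c ≤ m0`, and the step of `game` applies with `m0` in place of `M` (the step uses the bound only for the moving
point, the points becoming old, and the points alive). -/
def GoalD2 : Prop := ∀ (M m0 R J c0 : ℕ) (ν ℓ : ℕ → ℕ) (Bd : Finset ℕ), 1 ≤ m0 → m0 ≤ M →
  (∀ c, 1 ≤ ν c) → (∀ c, ν c ≤ M) → (∀ c, c0 ≤ c → ν c ≤ m0) → M + 1 ≤ J → J ≤ R →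
  (∀ z ∈ Bd, J ≤ z) → (∀ y, y + 1 < R → ℓ y ≤ ℓ (y + 1) + 1) →
  (∀ y, y + 1 < J → 2 * M + 1 ≤ ℓ y) →
  (∀ y, J ≤ y + 1 → y + 1 < R → y + 1 ∉ Bd → 2 * m0 + 1 ≤ ℓ y) →
  ∑ c ∈ range c0, (ν c + 1).choose 2 < ∑ y ∈ range (J - M), ℓ y →
  ∃ κ x : ℕ → ℕ, Run M R ν κ x ∧ (∀ y < R, ℓ y ≤ SS κ x ν y ∧ SS κ x ν y ≤ ℓ y + m0) ∧
    (∀ y < R, y ∈ Bd → x y = 0) ∧
    2 * ∑ y ∈ range R, (SS κ x ν y - ℓ y) ≤ 2 * m0 * Bd.card + m0 * (m0 - 1) * cl R Bd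

/-- E1w (filling, two bounds). As `Gm.GoalE1` (`Pool/Agent/Helper43/Gm/E.lean`), case `R - 1 ∈ Bd`, with D2 instead of D. -/
def GoalE1w : Prop := ∀ (M m0 R J c0 : ℕ) (ν ℓ : ℕ → ℕ) (Bd : Finset ℕ), 1 ≤ m0 → m0 ≤ M →
  1 ≤ R → (∀ c, 1 ≤ ν c) → (∀ c, ν c ≤ M) → (∀ c, c0 ≤ c → ν c ≤ m0) → M + 1 ≤ J → J ≤ R →
  (∀ z ∈ Bd, J ≤ z) → (∀ y, y + 1 < R → ℓ y ≤ ℓ (y + 1) + 1) →
  (∀ y, y + 1 < J → 2 * M + 1 ≤ ℓ y) →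
  (∀ y, J ≤ y + 1 → y + 1 < R → y + 1 ∉ Bd → 2 * m0 + 1 ≤ ℓ y) →
  ∑ c ∈ range c0, (ν c + 1).choose 2 < ∑ y ∈ range (J - M), ℓ y → R - 1 ∈ Bd →
  ∀ W N : ℕ, 2 * m0 * Bd.card + m0 * (m0 - 1) * cl R Bd +
      (ℓ (R - 1) + m0) * (ℓ (R - 1) + m0 - 1) ≤ 2 * W →
  ∑ y ∈ range R, ℓ y + W ≤ ∑ c ∈ range N, (ν c + 1).choose 2 →
  ∃ (n : ℕ → ℕ → ℕ) (π ε : ℕ → ℤ), Pri R ν n π ε N ∧ ∀ y < R, ℓ y ≤ ∑ c ∈ range N, n c y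

/-- E2w (packing, two bounds). As `Gm.GoalE2` (`Pool/Agent/Helper43/Gm/E.lean`), case `ℓ (R - 1) ≤ 1`, with D2 (`Bd = ∅`, `J2` rows)
instead of D. -/
def GoalE2w : Prop := ∀ (M m0 R J J2 c0 : ℕ) (ν ℓ : ℕ → ℕ), 1 ≤ m0 → m0 ≤ M →
  (∀ c, 1 ≤ ν c) → (∀ c, ν c ≤ M) → (∀ c, c0 ≤ c → ν c ≤ m0) → M + 1 ≤ J → J ≤ J2 → J2 ≤ R →
  (∀ y, y + 1 < R → ℓ y ≤ ℓ (y + 1) + 1) → (∀ y, y + 1 < J → 2 * M + 1 ≤ ℓ y) →
  (∀ y, J ≤ y + 1 → y + 1 < J2 → 2 * m0 + 1 ≤ ℓ y) → ℓ (R - 1) ≤ 1 →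
  ∑ c ∈ range c0, (ν c + 1).choose 2 < ∑ y ∈ range (J - M), ℓ y →
  ∀ N : ℕ, ∑ c ∈ range N, (ν c + 1).choose 2 ≤ ∑ y ∈ range J2, ℓ y →
  ∃ (n : ℕ → ℕ → ℕ) (π ε : ℕ → ℤ), Pri R ν n π ε N ∧
    (∀ y < R, ∑ c ∈ range N, n c y ≤ ℓ y) ∧
    ∑ y ∈ range R, ∑ c ∈ range N, n c y = ∑ c ∈ range N, (ν c + 1).choose 2

/-- the triangle with big points of small area and small points -/
def TLc : Prop := ∀ (M m0 e : ℕ) (m : ℕ → ℕ) (s t : Finset ℕ), 1 ≤ m0 → m0 ≤ M → 100 * M ≤ e →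
  Disjoint s t → (∀ k ∈ s, 1 ≤ m k ∧ m k ≤ M) → (∀ k ∈ t, 1 ≤ m k ∧ m k ≤ m0) →
  4 * ∑ k ∈ s, (m k + 1).choose 2 ≤ e ^ 2 →
  ((e + 2).choose 2 + 3 * m0 ^ 2 ≤ ∑ k ∈ s ∪ t, (m k + 1).choose 2 →
    Inj (triD 0 e) (rows m (s ∪ t))) ∧
  (∑ k ∈ s ∪ t, (m k + 1).choose 2 + 2 * m0 ^ 2 ≤ (e + 2).choose 2 →
    Ind (triD 0 e) (rows m (s ∪ t)))

/-- TL. As `Gm.GoalG` (`Helper89/Gm/G.lean`) and `GoalF1`, `GoalF2` (`Helper58/Gm/F1.lean`, `Helper49/Gm/F2.lean`), with `p = 0`, `R = e + 1`,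
rows of lengths `ℓ y = e + 1 - y`. Enumerate `s` first (`c0 = s.card`), then `t`; for `c ≥ (s ∪ t).card` put `ν c = 1`.
`J = e + 2 - 2 M`; `∑_{y < J - M} ℓ y ≥ T_(e+1) - T_(3M-1) > e²/4`. Inj: E1w with `Bd = Icc (e + 2 - 2 m0) e` (`2 m0 - 1` rows, `cl = 0`),
`2 W = 2 m0 (2 m0 - 1) + (1 + m0) m0 ≤ 6 m0²`. Ind: E2w with `J2 = e + 2 - 2 m0`, missing cells `T_(2 m0 - 1) ≤ 2 m0²`; take the subset
`D''` with `∑ c, n c y` cells in the row `y` (as in F2: `Inj D''` by A, `D''.card = (rows …).card`, so `Ind`). Prices and rows: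
`Gm.GoalA` (`PkA.goalA`) or `SG.GoalA2` (`SG.gA2`) with the row `y = d.2`. -/
def GoalTL : Prop := GoalE1w → GoalE2w → TLc

/-- exact filling of trapezoids with short long rows -/
def BXc : Prop := ∀ (d h m0 : ℕ), 1 ≤ m0 → 2 * m0 + 1 ≤ h → h ≤ d + 1 → 27 * m0 ^ 2 + h ≤ d + 2 →
  Pool.Agent.Helper43.Ah.Good m0 (triZ d h)

/-- BX. `SG.GoalQK` (proved: `Pool.Agent.Helper18.SG.gQK` in `SG/Main2.lean`) with `M = m0`, `S = 0`, `R = h`, `K = ∅`, `D = triZ d h`,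
`ℓ y = d + 2 - h + y` (the row `d.2 = j` has `d + 1 - j = ℓ (h - 1 - j)` cells): `M ℓ y + 27 M² ≤ M ℓ (y+1) + ℓ y` as
`27 M² ≤ d + 2 - h ≤ ℓ y`. Then `SG.GoalGI` (`gGI`) with `K = ∅` gives `GoodFor`. -/
def GoalBX : Prop := Pool.Agent.Helper18.SG.GoalQK → Pool.Agent.Helper18.SG.GoalGI → BXc

/-- CII (Case II). `m0 = Nat.sqrt (d / 28)`; `Big = {k ∈ A : d < 28 (m k)²}`, `Sm = A \ Big`: `m k ≤ m0` there (`28 m0² ≤ d`).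
`e = d - d / 30`. By `subtotal` there is `U ⊆ Sm` with
`T_e + 3 m0² + M ≤ t(Big) + t(U) ≤ T_e + 4 m0² + M`: `t(Big) < d² / 10^6 ≤ T_e`, and `t(Sm) ≥ T_(d+1) - d² / 10^6` is large enough.
`A' = Big ∪ U`, `B = Sm \ U`. As `6 m0² + M ≤ e` we have `t(A') + 2 m0² ≤ T_(e+1)`. TLc with `e`, `s = Big`, `t = U`: `Ind`
for `triD 0 e`; with `e - 1`: `Inj` for `triD 0 (e-1)` (`4 t(Big) ≤ (e-1)²`, `100 M ≤ e - 1`). BXc for `B`: `h = d - e + 1 = d/30 + 1`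
(`27 m0² + h ≤ d + 2`, `2 m0 + 1 ≤ h - 1`): card `= T_(d+1) - T_e > t(B)` (as `t(B) ≤ T_(d+1) + M - t(A')`), so `Ind`; `h = d - e`:
card `= T_(d+1) - T_(e+1) ≤ t(B)`, `Inj`. GLc with `e`, `A'`, `B`. -/
def GoalCII : Prop := TLc → BXc → GLc → GoalF1Z → CaseII

/-- Core. Pig, CaseI, CaseII. -/
theorem core_of (h1 : GoalPig) (h2 : CaseI) (h3 : CaseII) : CoreC := by
  intro A m M d hA hM hd hlo hhi
  rcases Nat.lt_or_ge (10 ^ 6 * ∑ k ∈ A.filter (fun k => d < 28 * m k ^ 2), (m k + 1).choose 2)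
    (d ^ 2) with h | h
  · exact h3 A m M d hA hM hd h hlo hhi
  · obtain ⟨μ, δ, a1, a2, a3, a4⟩ := h1 A m M d hA hM hd h
    exact h2 A m M μ δ d hA hd a1 a2 a3 a4 hlo hhi

end Pool.Agent.Helper18.UW
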