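import Mathlib
import Pool.Agent.Helper18.UW.Defs

/-!
# Project UW: intermediate statements (packets), special points and the game before the zone

Every packet: create `Pool/Agent/<You>/UW/<Name>.lean` with `theorem goalX : GoalX` (goals used are
hypotheses). The facts H1, H2, H4 of `Pool.Agent.Helper43.Hw` are proved (`Pool/Agent/Helper43/Hw/Main.lean`)
and so are all the goals of EW (see the imports of `Pool/Agent/Helper18/EW/Main.lean`); they may be used or taken as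
hypotheses. Notation: `J = R - 1 - μ`, `w = R - 1 - y`, `v1 = 2 ^ q * v`, `g = κ τ`; subtractions are
subtractions of natural numbers.
-/

set_option autoImplicit false

namespace Pool.Agent.Helper18.UW

open Finset
open Pool.Agent.Helper43.Hw (T na va lz Play aa ac sc oo sk U Dd Sd Pn nx bb np)
open Pool.Agent.Helper18.EW

/-- E8av (the rest `Γ t = ℓ t - lz t`, rows `τ ≤ t ≤ J`). As E8a (`Pool/Agent/Helper73/EW/E8a.lean`). In the stopped play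
H4(1) says for `τ ≤ t < J`: `lz (t+1) + oo t + sk t = lz t`, so with `i0` `Γ (t+1) = Γ t + 1 + oo t + sk t`. Upper bound: there are
less than `v1` rows, `oo t ≤ oo τ` (no new old points), `10 μ oo τ ≤ 42 R + 10 μ`, `R ≤ 32 μ² / l`; `∑_{τ ≤ t < J} sk t ≤ μ` (a row
`t'` is counted for one `t = μ + t' - x t'` only, and `τ - μ < t' < τ`, since `x t' = 0` for `τ ≤ t' ≤ J`). So
`Γ J ≤ 2 μ + v1 (2 + 4.2 R / μ) ≤ 2 μ + 2 v1 + 134.4 μ v1 / l ≤ 0.15 b μ` (`1280 v1 ≤ b l`, `b ≥ 2^42`, `2^33 b l ≤ μ`). Growth: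
`lz t ≤ μ oo t` (`t ≤ J`: only old points give something), so `μ (oo t + 1) ≥ ℓ t - Γ t ≥ 0.9 R - 0.15 b μ ≥ 3.6 μ² / l - μ² / (2^33 l)`
(`ll`, `lo`), hence `16 l (1 + oo t) ≥ μ`. -/
def GoalE8av : Prop := ∀ (μ δ R N K b l Lg q v τ : ℕ) (S W : ℤ) (ℓ κ x : ℕ → ℕ),
  Vp μ δ R N K b l Lg q v τ S W ℓ κ x →
  (∀ t, τ ≤ t → t + 1 + μ ≤ R → lz μ R N κ x t ≤ ℓ t ∧
    20 * (ℓ t - lz μ R N κ x t) ≤ 3 * b * μ) ∧
  (∀ t, τ ≤ t → t + 2 + μ ≤ R →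
    μ + 16 * l * (ℓ t - lz μ R N κ x t) ≤ 16 * l * (ℓ (t + 1) - lz μ R N κ x (t + 1)))

/-- E8bv (the same for the rows `J ≤ t < J + μ / 4000`). As E8b (`Pool/Agent/Helper48/EW/E8b.lean`). H4(1) for `t ≥ J`:
`lz (t+1) + oo + sk = lz t + (N - g)`, so `Γ (t+1) - Γ t = ℓ (t+1) - ℓ t + oo + sk - (N - g)` (integers). At `J` (`R - 1 - J = μ`,
`x J = na J = 0`, `J < ac g`) E3(2) says `Dd + (N - g) T μ + ∑_{z<J} lz z + (μ+1) lz J ≤ Sd + oo T μ + N T μ`. Let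
`V = ∑_{J < z < R} (ℓ z - ℓ J - (z - J)) ≥ 0`; by `i1`, `i2` every term is `≤ (N - g) δ`, so `l V ≤ 140 μ² δ ≤ μ³ / 2^39` (`un`;
`20 δ ≤ v1`, `1280 v1 ≤ b l ≤ μ / 2^33`). `∑_{z<J} ℓ z + (μ+1) ℓ J + T μ + V = ∑_{z<R} ℓ z = N T μ + S + W`, and
`∑_{z<J} lz z + (μ+1) lz J = ∑_{z<J} ℓ z + (μ+1) ℓ J - ∑_{τ≤z<J} Γ z - (μ+1) Γ J`, where by E8av
`∑ Γ + (μ+1) Γ J ≤ (v1 + μ + 1) 0.15 b μ ≤ b μ² / 3 ≤ S`. So `(1 + oo J - (N - g)) T μ ≥ Dd J - Sd J + W - V`. By `dd` (`w = μ`)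
`8 l Dd J ≥ μ³`; `Sd J ≤ μ²` (counted rows have `J - t + x t = U t ≤ μ`, so `t > J - μ`); `2^10 l |W| ≤ μ³`; the right side
times `l` is `≥ μ³ / 8 - l μ² - μ³ / 2^10 - μ³ / 2^39 ≥ μ³ / 9`, and (`T μ ≤ 0.51 μ²`) `5 l (1 + oo J - (N - g)) ≥ μ`. For
`J ≤ t ≤ J + μ/4000` the old points alive at `J` and dead at `t` have `J - μ < ac ≤ t - μ`; by `su` their number `D` has
`l D ≤ 160 (t - J) + 3 l ≤ μ/25 + 3 l`. So `16 l (Γ (t+1) - Γ t) ≥ 16 (μ/5 - μ/25 - 3 l) ≥ μ`: first claim; the second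
follows (with E8av at `J`). Third: for `J ≤ t < J + δ` the growth is at most `1 + (N - g) + oo τ + sk t`, `∑ sk ≤ μ + δ` (rows
`t' > J - μ`), so `Γ t ≤ 0.15 b μ + δ (2 + 140 μ / l + 4.2 R / μ) + 2 μ`, `R / μ ≤ 32 μ / l`, `25600 δ ≤ b l`: `≤ b μ / 4`. -/
def GoalE8bv : Prop := ∀ (μ δ R N K b l Lg q v τ : ℕ) (S W : ℤ) (ℓ κ x : ℕ → ℕ),
  Vp μ δ R N K b l Lg q v τ S W ℓ κ x → (b : ℤ) * μ ^ 2 ≤ 3 * S → 2 ^ 10 * l * |W| ≤ (μ : ℤ) ^ 3 →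
  (∀ t, R ≤ t + 1 + μ → t < R - 1 - μ + μ / 4000 →
    μ + 16 * l * ℓ t + 16 * l * lz μ R N κ x (t + 1) ≤
      16 * l * ℓ (t + 1) + 16 * l * lz μ R N κ x t) ∧
  (∀ t, R ≤ t + 1 + μ → t ≤ R - 1 - μ + μ / 4000 → lz μ R N κ x t ≤ ℓ t) ∧
  (∀ t, R ≤ t + 1 + μ → t + 1 + μ ≤ R + δ → 4 * (ℓ t - lz μ R N κ x t) ≤ b * μ)

/-- GA4 (unit steps). As GA (`Pool/Agent/Helper15/EW/GA.lean`), with multiplicities `ms i` and a set `A` of indices. Let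
`S P = ∑_{i ∈ A} (ms i - P / e i)`. `S` is antitone, `S 0 = ∑ ms i`, and `S P ≤ S (P+1) + 1`: a summand changes from
`P` to `P + 1` (by one) only if `e i` divides `P + 1` and `1 ≤ (P+1) / e i ≤ ms i ≤ μ`, and this happens for at most one
`i` by hypothesis. Let `P'` be the least `P` with `S P ≤ g` (`P' ≤ P0`, `P' ≥ 1`): `S P' = g`, some `e i` divides `P'`, so `P'`
is even, `P' < P0`; `P = P' + 1` is odd, `S P = S P'`. -/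
def GoalGA4 : Prop := ∀ (μ : ℕ) (A : Finset ℕ) (ms e : ℕ → ℕ) (P0 g : ℕ),
  (∀ i ∈ A, 0 < e i ∧ 2 ∣ e i ∧ ms i ≤ μ) →
  (∀ i ∈ A, ∀ j ∈ A, i ≠ j → ∀ a c, 1 ≤ a → a ≤ μ → 1 ≤ c → c ≤ μ → a * e i ≠ c * e j) →
  Odd P0 → ∑ i ∈ A, (ms i - P0 / e i) ≤ g → g < ∑ i ∈ A, ms i →
  ∃ P, Odd P ∧ P ≤ P0 ∧ ∑ i ∈ A, (ms i - P / e i) = g

/-- GE4 (the special points exist, for arbitrary multiplicities and rows of start). As GE
(`Pool/Agent/Helper69/EW/GE.lean`). Let `M0 = 2 (μ+1)^(K+1)`; all the slopes satisfy `e i % M0 = 2 (μ+1)^i`: they are even and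
`a e i ≠ c e j` for `i ≠ j`, `1 ≤ a, c ≤ μ`. Let `E` be a large even number (`E ≥ 4000 μ² M0`), `P0` the odd number with
`3 μ E / 4 ≤ P0 ≤ 3 μ E / 4 + 1`. The points `i < b` start at `τ` or `τ + 1`: `e i ∈ (P0 / ms i - M0, P0 / ms i]` (real quotient), so
`ms i e i ≤ P0 < ms i e i + μ M0`, `0.74 E ≤ e i ≤ 0.76 E`. The other points start at the row `r i`. For a row `t` let `A t` be the set of the
`i < K` with `i < b` or `r i ≤ t`. Row `τ`: GA4 with `A = {i < b}`, `P0`, `g = Γ τ` (the sum at `P0` is `0`; `4 Γ τ ≤ b μ < 4 ∑_{i<b} ms i`).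
Induction on the rows, `s` is the first row with `∑ ms i ≤ Γ s` (`J1 < s ≤ S`, as `4 Γ J1 ≤ b μ`, `Γ` increasing). Step
`t → t + 1 < s`, `∑_{i ∈ A t} (ms i - P t / e i) = Γ t`. We have `E ≤ P t`: otherwise all `P t / e i ≤ 1` (`E ≤ 2 e i`),
`Γ t ≥ ∑_{A t} (ms i - 1)`, which is `> b μ / 4` if `t ≤ J1`, and if `t > J1` (`A t` = all) `Γ (t+1) ≥ ∑ ms i - K + 4 K`, contradiction
to `t + 1 < s`. `∑_{A t} (ms i - (P t - E) / e i) ≤ Γ t + 2 K` (`E ≤ 2 e i`). Let `B` be the set of the `i` with `b ≤ i < K`,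
`r i = t + 1`. GA4 with `A t`, `P0 := P t - E` (odd), `g = Γ (t+1) - B.card ≥ Γ t + 2 K` gives `P' = P (t+1)` (`g < ∑_{A t} ms i`: if
`t + 1 ≤ J1` since `4 Γ ≤ b μ`; if `t + 1 > J1` then `A t` is everything). For `i ∈ B` the slope is chosen in
`(P' / ms i, P' / (ms i - 1)]` (so `P' / e i = ms i - 1`, the new point gives `1`; for the rows `t' ≤ t`:
`P t' ≥ P t ≥ P' + E ≥ (ms i - 1) e i + e i = ms i e i`, not started); this interval has length `≥ P' / μ² ≥ M0 + 1`. Bounds: as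
`4 ∑_{i<b} (ms i - P' / e i) ≤ 4 Γ ≤ b μ`, some `i < b` has `P' / e i ≥ ms i - μ / 4 ≥ 0.74 μ`, so `P' ≥ 0.74 μ * 0.74 E ≥ 0.54 μ E`
and the new slopes are `≥ P' / μ ≥ E / 2`; they are `≤ P0 / (0.99 μ - 1) ≤ E`. First batch at `τ + 1`: `P (τ+1) ≤ P0 - E < ms i e i`.
No `e i` (even) divides `P t` (odd). For `t < r i` the summand of `i` is `0`. -/
def GoalGE4 : Prop := ∀ (μ b K τ J1 S : ℕ) (ms r Γ : ℕ → ℕ), 1000 ≤ μ → 1 ≤ b → b ≤ K →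
  τ < J1 → J1 < S → (∀ i < K, 99 * μ ≤ 100 * ms i ∧ ms i ≤ μ) →
  (∀ i, b ≤ i → i < K → τ + 2 ≤ r i ∧ r i ≤ J1) →
  (∀ t, τ ≤ t → t < S → Γ t + 4 * K ≤ Γ (t + 1)) →
  ∑ i ∈ range K, ms i ≤ Γ S → 4 * Γ J1 ≤ b * μ →
  ∃ (s E : ℕ) (e P : ℕ → ℕ), J1 < s ∧ s ≤ S ∧
    (∀ t, τ ≤ t → t < s → Γ t < ∑ i ∈ range K, ms i) ∧ ∑ i ∈ range K, ms i ≤ Γ s ∧
    (∀ i < K, 0 < e i ∧ e i ≤ E ∧ E ≤ 2 * e i) ∧
    (∀ i < K, ∀ t, τ ≤ t → t < s → ¬ e i ∣ P t) ∧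
    (∀ t, τ ≤ t → t + 1 < s → P (t + 1) + E ≤ P t) ∧
    (∀ t, τ ≤ t → t < s → ∑ i ∈ range K, (ms i - P t / e i) = Γ t) ∧
    (∀ i < b, P (τ + 1) / e i < ms i) ∧
    (∀ i, b ≤ i → i < K → ∀ t, τ ≤ t → t < s → (P t / e i < ms i ↔ r i ≤ t))

/-- UG (sums over the special points). By `UGrp.one` every special point satisfies `EW.Grp` with `K = 1`, the
multiplicity `ms i` and the slopes `fun _ => e i`; take the sums of `EW.GoalG2` and `EW.GoalG5` (with `K = 1`) over `i < K`.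
(`gV ≤ 1 * ms i`; `gN` is monotone in `X` by definition.) -/
def GoalUG : Prop := ∀ (μ δ R K τ s E : ℕ) (ms e P : ℕ → ℕ), UGrp μ δ R K τ s E ms e P →
  ((∀ z < τ, uV R K τ s ms e P z = 0) ∧
    (∀ z, τ ≤ z → z < s → uV R K τ s ms e P z = ∑ i ∈ range K, (ms i - P z / e i)) ∧
    (∀ z < R, uV R K τ s ms e P z ≤ ∑ i ∈ range K, ms i) ∧
    ∑ z ∈ range R, uV R K τ s ms e P z = ∑ i ∈ range K, T (ms i)) ∧
  (∀ y, s ≤ y → y + 1 < R →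
    uV R K τ s ms e P (y + 1) + uO R K τ s ms e P y + uK K τ s ms e P y = uV R K τ s ms e P y) ∧
  (∀ y, s ≤ y → y < R →
    ∑ z ∈ Ico y R, uV R K τ s ms e P z + uO R K τ s ms e P y * T (R - 1 - y) +
        uS R K τ s ms e P y =
      (R - y) * uV R K τ s ms e P y + uD R K τ s ms e P y) ∧
  (∀ y, s ≤ y → y < R → uO R K τ s ms e P y = uN R K τ s ms e P (R - 1 - y)) ∧
  (∀ y, s ≤ y → y < R →
    uD R K τ s ms e P y ≤ T (R - 1 - y) * uN R K τ s ms e P (R - 1 - y)) ∧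
  (∀ X, uN R K τ s ms e P X ≤ K) ∧
  (∀ X X', X ≤ X' → uN R K τ s ms e P X ≤ uN R K τ s ms e P X') ∧
  (∀ y, s ≤ y → y < R → uS R K τ s ms e P y ≤ (R - 1 - y) * uQ R K τ s ms e P (R - 1 - y)) ∧
  (∀ y, s ≤ y → y < R →
    ∑ j ∈ Ico y (R - 1), uK K τ s ms e P j ≤ uQ R K τ s ms e P (R - 1 - y))

/-- G7u (few skips of the special points near the end). As G7 (`Pool/Agent/Helper11/EW/G7.lean`), with `ms i` in place of
`μ` (the numbers `U t = R - 1 - t - P t / e i` do not depend on `ms i`; with `J i = R - 1 - ms i`, `P t / e i ≤ R - 1 - t` holds for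
the counted rows because `P t / e i < ms i ≤ R - 1 - t` for `t ≤ J i` and `P t / e i + (t - J i) < ms i` for `t ≥ J i`, as
`P (t+1) / e i + 1 ≤ P t / e i` (`dr`, `e i ≤ E`) and `ma`). The growth of the sum over all `i < K` gives `64 l K D ≥ μ E`,
`D = P t - P (t+1)`, and for each point the number of counted rows is `≤ 1 + 128 l K (w + 1) / μ`. -/
def GoalG7u : Prop := ∀ (μ δ R K τ s E l w : ℕ) (ms e P : ℕ → ℕ), 1 ≤ μ → 1 ≤ l →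
  UGrp μ δ R K τ s E ms e P → 128 * l * K ≤ μ →
  (∀ t, τ ≤ t → t + 1 < s → μ + 16 * l * ∑ i ∈ range K, (ms i - P t / e i) ≤
    16 * l * ∑ i ∈ range K, (ms i - P (t + 1) / e i)) →
  μ * uQ R K τ s ms e P w ≤ μ * K + 128 * l * K ^ 2 * (w + 1)

/-- G8u (deaths of the special points). As G8 (`Pool/Agent/Helper56/EW/G8.lean`). Let `a i = ac`, `J i = R - 1 - ms i`,
`J ≤ J i ≤ J + δ`. By G1 (for the point `i`, `UGrp.one`) and the last hypothesis `J i - a i = 2^(q-j) v` for the points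
`j b ≤ i < (j+1) b`, `1 ≤ j ≤ q` (the row `J i - 2^(q-j) v` is `> τ`); for `i < b`: `τ ≤ a i ≤ τ + 1`, so
`v1 / 2 ≤ v1 - l - 1 ≤ J i - a i < v1 + δ`. A point with `J i - a i < w` (`w = R - 1 - y`) is alive at `y` and gives `T (J i - a i)` to `uD y`.
If `w ≤ v1` (so `q ≥ 1`, as `w > 2 v`): let `2^k v < w ≤ 2^(k+1) v`, `1 ≤ k < q`; the batch `j = q - k` gives
`b T (2^k v) ≥ b (w/2)² / 2`. If `v1 < w ≤ 2 v1`: then `q ≥ 1` (`w > 2 v`), the batch `j = 1` gives `b T (v1/2) ≥ b v1² / 8 ≥ b w² / 32`.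
If `2 v1 < w ≤ 16 v1`: `v1 + δ ≤ 2 v1 < w`, the first batch gives `≥ b (v1/2)² / 2 ≥ b w² / 2048`. -/
def GoalG8u : Prop := ∀ (μ δ R b q τ s E v l y : ℕ) (ms e P : ℕ → ℕ), 1 ≤ v → 1 ≤ b →
  UGrp μ δ R (b * (q + 1)) τ s E ms e P → R - 1 - μ < τ + 2 ^ q * v →
  τ + 2 ^ q * v ≤ R - 1 - μ + l → 2 * l + 4 ≤ 2 ^ q * v → 20 * δ ≤ 2 ^ q * v →
  (∀ i < b, P (τ + 1) / e i < ms i) →
  (∀ j, 1 ≤ j → j ≤ q → ∀ i, j * b ≤ i → i < (j + 1) * b → ∀ t, τ ≤ t → t < s →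
      (P t / e i < ms i ↔ R - 1 - ms i ≤ t + 2 ^ (q - j) * v)) →
  s ≤ y → y < R → 2 * v < R - 1 - y → R - 1 - y ≤ 16 * (2 ^ q * v) →
  b * (R - 1 - y) ^ 2 ≤ 2048 * uD R (b * (q + 1)) τ s ms e P y

/-- E13v (the special points satisfy `Ext`), `L = ℓ - uV`. As E13 (`Pool/Agent/Helper81/EW/E13.lean`), with UG instead of G2, G5
and G7u instead of G7, `β = 1`. `inc`: `ℓ (y+1) = ℓ y + 1` and UG. `tot`: `∑_{z<y} ℓ z + (R - y) ℓ y + T w = ∑_{z<R} ℓ z` for `y ≥ s`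
(arithmetic progression), and `∑_{z<y} uV z + (R - y) uV y = ∑ T (ms i) + uO T w + uS - uD`. `oa`, `dth`: `uO y = uN w`. `Sq`, `kq`:
`μ uQ w ≤ μ K + 128 l K² (w+1)`, `128 l K² = b * (128 b (q+1)² l) ≤ b μ / 2^24`. -/
def GoalE13v : Prop := ∀ (μ δ R N K b l Lg q τ s E : ℕ) (ℓ ms e P : ℕ → ℕ) (W : ℤ), 1 ≤ μ →
  Par4 μ R K b l Lg q → UGrp μ δ R K τ s E ms e P →
  (∀ y, s ≤ y → y + 1 < R → ℓ (y + 1) = ℓ y + 1) →
  (∑ z ∈ range R, (ℓ z : ℤ) = N * T μ + ∑ i ∈ range K, (T (ms i) : ℤ) + W) →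
  (∀ z < R, uV R K τ s ms e P z ≤ ℓ z) →
  (∀ t, τ ≤ t → t + 1 < s → μ + 16 * l * ∑ i ∈ range K, (ms i - P t / e i) ≤
    16 * l * ∑ i ∈ range K, (ms i - P (t + 1) / e i)) →
  Ext μ R N K b 1 s W (fun z => ℓ z - uV R K τ s ms e P z) (uO R K τ s ms e P)
    (uK K τ s ms e P) (uD R K τ s ms e P) (uS R K τ s ms e P) (uN R K τ s ms e P)

/-- E14v (all the deaths). `v1 = 2^q v`, `w = R - 1 - y > 2 v`. If `w ≤ 16 v1`: G8u, `b w² ≤ 2048 uD`, and `80 w ≤ 1280 v1 ≤ b l`, so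
`w² (b l + w) ≤ (81/80) l b w² ≤ 2100 l uD`. If `w > 16 v1`: `w³ ≤ 8 l Dd`, and `b l ≤ 2560 v1 ≤ 160 w`, so
`w² (b l + w) ≤ 161 w³ ≤ 1288 l Dd`. (`2 l + 4 ≤ 2^q v` by `vc`, `b ≥ 2^42`.) -/
def GoalE14v : Prop := ∀ (μ δ R b l q v τ s E y Dv : ℕ) (ms e P : ℕ → ℕ), 1 ≤ v → 2 ^ 42 ≤ b → 1 ≤ l →
  1280 * (2 ^ q * v) ≤ b * l → b * l ≤ 2560 * (2 ^ q * v) → 20 * δ ≤ 2 ^ q * v →
  R - 1 - μ < τ + 2 ^ q * v → τ + 2 ^ q * v ≤ R - 1 - μ + l →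
  UGrp μ δ R (b * (q + 1)) τ s E ms e P → (∀ i < b, P (τ + 1) / e i < ms i) →
  (∀ j, 1 ≤ j → j ≤ q → ∀ i, j * b ≤ i → i < (j + 1) * b → ∀ t, τ ≤ t → t < s →
      (P t / e i < ms i ↔ R - 1 - ms i ≤ t + 2 ^ (q - j) * v)) →
  s ≤ y → y < R → 2 * v < R - 1 - y →
  (16 * (2 ^ q * v) < R - 1 - y → (R - 1 - y) ^ 3 ≤ 8 * l * Dv) →
  (R - 1 - y) ^ 2 * (b * l + (R - 1 - y)) ≤
    4096 * l * (Dv + uD R (b * (q + 1)) τ s ms e P y)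

/-- Xf (from the stopped play to the final play). The play `κ2, x2` is stopped at `τ`; `κ, x` agrees with it before the
row `s > J`. (1) For `y ≥ s`: a point `c < g = κ2 τ` has `sc ≤ τ < s` in both plays, the same `ac`, the same value `va c z` for all `z` (the
definition of `nn` uses the rows with `κ = c`, `0 < x` only, which are `< τ`), so the summands of `Dd` for `c < g` are the same; the
summands are `≥ 0`, and `g ≤ κ y`. (2) Only rows `≤ J < s` matter for `ac c + X > J`, `ac c ≤ J` (`ac c ≤ J` iff `c < aa J`, and then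
`ac c` is determined by the rows `≤ J`). -/
def GoalXf : Prop := ∀ (μ R N τ s : ℕ) (κ2 x2 κ x : ℕ → ℕ), 1 ≤ μ → μ + 2 ≤ R →
  Play μ R N κ2 x2 → Play μ R N κ x → 1 ≤ τ → τ + 1 + μ ≤ R → R < s + 1 + μ → s ≤ R →
  (∀ y, τ ≤ y → y < R → κ2 y = κ2 τ ∧ x2 y = na μ R y) → (∀ y < s, κ y = κ2 y ∧ x y = x2 y) →
  (∀ y, s ≤ y → y < R → Dd μ R κ2 x2 y ≤ Dd μ R κ x y) ∧
  (∀ X, np μ R N κ x X ≤ np μ R N κ2 x2 X)

/-- GameV (the game theorem for the virtual play). Assembly by helper18. -/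
def GoalGameV : Prop := ∀ (μ δ R N K b l Lg q v τ w : ℕ) (W : ℤ) (ms ℓ κ2 x2 : ℕ → ℕ),
  Vp μ δ R N K b l Lg q v τ (∑ i ∈ range K, (T (ms i) : ℤ)) W ℓ κ2 x2 →
  (∀ i < K, μ ≤ ms i + δ ∧ ms i ≤ μ) → 2 * v < w → 4 * w ≤ μ →
  2 ^ 26 * μ ≤ w * (b * l + w) → 2 ^ 14 * l * |W| ≤ ((w ^ 2 * (b * l + w) : ℕ) : ℤ) →
  ((w * (2 ^ 27 * μ + b * l * w) : ℕ) : ℤ) ≤ 2 ^ 20 * l * |W| →
  ∃ (κ x e P : ℕ → ℕ) (s E : ℕ), Play μ R N κ x ∧ UGrp μ δ R K τ s E ms e P ∧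
    (∀ y < s, κ y = κ2 y ∧ x y = x2 y) ∧
    ((0 ≤ W ∧ ∀ z < R, lz μ R N κ x z + uV R K τ s ms e P z ≤ ℓ z) ∨
      (W ≤ 0 ∧ ∀ z < R, ℓ z ≤ lz μ R N κ x z + uV R K τ s ms e P z))

end Pool.Agent.Helper18.UW
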