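import Mathlib
import Pool.Agent.Helper18.UW.Defs

/-!
# Project UW: intermediate statements (packets), the real play and the virtual play

Every packet: create `Pool/Agent/<You>/UW/<Name>.lean` with `theorem goalX : GoalX` (goals used are
hypotheses). Notation: `J = R - 1 - μ`, `v1 = 2 ^ q * v`, `ac c`, `sc c` = first row at which `c` has started / is
old, `δ_c = μ - m c`. Subtractions are subtractions of natural numbers. The main points have indices `N0 ≤ c < N`.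
-/

set_option autoImplicit false

namespace Pool.Agent.Helper18.UW

open Finset
open Pool.Agent.Lead.Sh
open Pool.Agent.Helper43.Hw (T na va lz Play aa ac sc oo sk U Dd Sd Pn nx bb np)
open Pool.Agent.Helper43.Gm (Pri st mv nn)
open Pool.Agent.Helper18.EW

/-- U1 (facts H1 for unequal multiplicities). As H1 (`Pool/Agent/Helper63/Hw/H1.lean`), with `m c` in place of `μ` in
everything which concerns the point `c`. For 8, 9: the point `c < N` is a play with one point,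
`Play (m c) R 1 (uk κ c) (ux m R κ x c)`, and `va (m c) R κ x c z = va (m c) R (uk κ c) (ux m R κ x c) 0 z` for `z < R`; apply H2
(`∑_{z < R} va = T μ`). Check of `Play`: `ux y = na (m c) R y` if `κ y < c` (`< m c` for `y + 1 < R`; `na (y+1) = na y + 1` if
`na y > 0`; at the row where `κ` becomes `c` use `nat`), `x y` if `κ y = c`, `0` if `κ y > c`; `va`: for `κ z > c` the rows
`y` with `κ y < c` are not counted in `mv`, as `m c + y < na (m c) R y + z` would mean `R ≤ z`. -/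
def GoalU1 : Prop := ∀ (m : ℕ → ℕ) (R N : ℕ) (κ x : ℕ → ℕ),
  (∀ c < N, 1 ≤ m c ∧ m c + 2 ≤ R) → 2 ≤ R → UPlay m R N κ x →
  (∀ c, ∀ y < R, (κ y ≤ c ↔ y < sc R κ c) ∧ (aa κ x y ≤ c ↔ y < ac R κ x c)) ∧
  (∀ c, ∀ t < R, (κ t = c ∧ 0 < x t) ↔ (ac R κ x c ≤ t ∧ t < sc R κ c)) ∧
  (∀ c, ac R κ x c ≤ sc R κ c) ∧
  (∀ c < N, sc R κ c < R → va (m c) R κ x c (sc R κ c) = m c) ∧
  (∀ c < N, ∀ t, ac R κ x c ≤ t → t < sc R κ c → sc R κ c < R → x t + sc R κ c ≤ m c + t) ∧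
  (∀ y < R, ∀ c < κ y, st κ c y = sc R κ c ∧ sc R κ c ≤ y ∧
    ac R κ x c + m c ≤ va (m c) R κ x c y + y ∧
    (0 < va (m c) R κ x c y ↔ y < ac R κ x c + m c)) ∧
  (∀ y, y + 1 < R → ∀ c < κ y,
    (0 < va (m c) R κ x c y → va (m c) R κ x c (y + 1) + 1 +
      ((range y).filter (fun t => κ t = c ∧ 0 < x t ∧ m c + t = x t + y)).card =
        va (m c) R κ x c y) ∧
    (va (m c) R κ x c y = 0 → va (m c) R κ x c (y + 1) = 0 ∧
      ((range y).filter (fun t => κ t = c ∧ 0 < x t ∧ m c + t = x t + y)).card = 0)) ∧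
  (∀ c < N, ∑ z ∈ range R, va (m c) R κ x c z = T (m c)) ∧
  ∑ z ∈ range R, uz m R N κ x z = ∑ c ∈ range N, T (m c)

/-- U4 (loads of consecutive rows before the natural values). As H4(1), from U1. `va c (y+1)` for `c < κ y` by U1.7; a
point `κ y ≤ c < κ (y+1)` has `sc = y + 1` and gives `m c` (U1.4); `c = κ (y+1)` gives `x (y+1)`, the later ones `na = 0`.
(If `κ y = N` then `x y = 0`, and everything is as stated.) -/
def GoalU4 : Prop := ∀ (m : ℕ → ℕ) (R N : ℕ) (κ x : ℕ → ℕ),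
  (∀ c < N, 1 ≤ m c ∧ m c + 2 ≤ R) → 2 ≤ R → UPlay m R N κ x →
  ∀ y, y + 1 < R → (∀ c, κ y ≤ c → c < N → na (m c) R (y + 1) = 0) →
  uz m R N κ x (y + 1) + ∑ c ∈ range (κ y), m c + x y + uo m R κ x y + us m κ x y =
    uz m R N κ x y + ∑ c ∈ range (κ (y + 1)), m c + x (y + 1)

/-- UC (completion of a beginning). `k = κ Y + 1` if `0 < x Y`, `k = κ Y` otherwise. `κ' y = κ y`, `x' y = x y` for `y ≤ Y`,
`κ' y = k`, `x' y = na (m k) R y` (`0` if `k = N`) for `y > Y`. (`nat` on the rows `≤ Y`: `UPre.nat`; for `c = κ Y`, `x Y = 0`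
and `y > Y`: fine, `x' = na`.) Values `va (m c) R κ x c z`, `z ≤ Y`, depend on the rows `≤ z` only. -/
def GoalUC : Prop := ∀ (m : ℕ → ℕ) (R N Y : ℕ) (κ x : ℕ → ℕ),
  (∀ c < N, 1 ≤ m c ∧ m c + 2 ≤ R) → Y + 2 ≤ R → UPre m R N Y κ x →
  ∃ κ' x' : ℕ → ℕ, UPlay m R N κ' x' ∧ (∀ y ≤ Y, κ' y = κ y ∧ x' y = x y) ∧
    (∀ z ≤ Y, uz m R N κ' x' z = uz m R N κ x z)

/-- R1 (the real play until the row `J`: all the rows `≤ J` are exactly filled). `ℓ z = lam + 1 + z`. Induction on `y ≤ J`: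
there is a `UPre` on the rows `≤ y` with `uz z = ℓ z` for `z ≤ y`, `κ y < N`, and `N0 ≤ κ z` if `R - 60 M ≤ z ≤ y`.
Filling: for a number `need` and a first index `k0` either `∑_{k0 ≤ c < N} m c ≤ need`, or there is `k`, `k0 ≤ k < N`, with
`∑_{k0 ≤ c < k} m c ≤ need < ∑_{k0 ≤ c ≤ k} m c`. Row `0`: `need = ℓ 0`, `k0 = 0`, `κ 0 = k`, `x 0 = need - ∑`. Step `y → y + 1 ≤ J`:
complete by UC; `A = ∑_{c < κ y} va c (y+1)`, `A + uo + us + x y = ℓ y` by U4/U1.7 (points `> κ y` give nothing), so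
`need = ℓ (y+1) - A ≥ x y + 1`. If `need < m (κ y)`: `κ (y+1) = κ y`, `x (y+1) = need`. If `need ≥ m (κ y)`: fill with
`k0 = κ y` (`k > κ y`): `κ (y+1) = k`, `x (y+1) = need - ∑_{κ y ≤ c < k} m c` (a point becoming old at `y + 1` gives `m c`).
`UPre.nat`: `na (m c) R y = 0` for `c ≥ N0`, `y ≤ J` as `m c ≤ μ`; for `c < N0` and `y < R - 60 M` as `m c ≤ M`; for `y ≥ R - 60 M` there
is no unstarted `c < N0`. Claim at `z = R - 60 M`: if `κ z < N0` then all the conditions of the rows `< z` come from points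
`c < N0` and `∑_{z' < z} ℓ z' ≤ ∑_{c < N0} T (m c)`, against `pa`.
The points suffice: suppose that in the row `r ≤ J` all the remaining points do not exceed `need`; let `κ r = N`, `x r = 0`
(load `≤ ℓ r`), complete to a play. After `r` a point with the value `v` at `r` gives at most `v - 1, v - 2, …`, in total
`≤ v B / 2`, where `B = μ` if `r ≥ R - 59 M` (the points `c < N0` are old at `R - 60 M`, hence dead at `R - 59 M`), `B = M` otherwise. So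
`∑_c T (m c) ≤ ∑_{z ≤ r} ℓ z + ℓ r B / 2`, i.e. (`tot`) `∑_{r < z < R} ℓ z ≤ ℓ r B / 2 + ∑ T (ms i) + |W| ≤ ℓ r B / 2 + K μ² + 2 R`, and
`K μ² ≤ K l R / 4 ≤ μ R / 2^35`. If `r < R - 59 M`: the left side is `≥ 58 M ℓ r` and `≥ 29 M R`, contradiction. If
`R - 59 M ≤ r ≤ J`: it is `≥ μ ℓ r`, `ℓ r ≥ R / 2`, contradiction (`μ ≥ 2^75`). -/
def GoalR1 : Prop := ∀ (m ms : ℕ → ℕ) (M μ δ R N0 N K b l Lg q v lam : ℕ) (W : ℤ),
  Su m ms M μ δ R N0 N K b l Lg q v lam W →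
  ∃ κ x : ℕ → ℕ, UPre m R N (R - 1 - μ) κ x ∧
    (∀ z ≤ R - 1 - μ, uz m R N κ x z = lam + 1 + z) ∧ κ (R - 1 - μ) < N ∧ N0 ≤ κ (R - 60 * M)

/-- a play with the rows `< Y` exactly filled -/
structure Bx (m : ℕ → ℕ) (M μ R N0 N lam Y : ℕ) (κ x : ℕ → ℕ) : Prop where
  play : UPlay m R N κ x
  YJ : Y + 1 + μ ≤ R
  ex : ∀ z < Y, uz m R N κ x z = lam + 1 + z
  exY : uz m R N κ x Y ≤ lam + 1 + Y
  kN : κ Y < N
  n0 : N0 ≤ κ (R - 60 * M)

/-- R6a (number of the old points alive). Here and below only rows `y ≥ R - 50 μ` are used. The points `c < N0` are old at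
`R - 60 M`, `ac + m c ≤ R - 59 M`, so they are dead in the rows `≥ R - 59 μ`. An old point alive at `y` is a main point with
`y < ac + m c` (U1.6). Let `y' = y - (μ + 1) / 2`. If `ac > y'` then `va c y ≥ ac + m c - y ≥ μ - δ - (μ+1)/2 ≥ 0.49 μ`; the number of
these `c` is `≤ (lam + 1 + y) / (0.49 μ)`. If `ac ≤ y'` then at `y'` it is old or `c = κ y'`; if it is old,
`va c y' ≥ ac + m c - y' > y - y' ≥ μ / 2`: their number is `≤ (lam + 1 + y') / (0.5 μ) + 1`. `lam + 1 + y ≤ 1.006 R`: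
`10 μ uo ≤ 10 * 1.006 R (1/0.49 + 1/0.5) + 10 μ ≤ 42 R + 10 μ`. -/
def GoalR6a : Prop := ∀ (m ms : ℕ → ℕ) (M μ δ R N0 N K b l Lg q v lam Y : ℕ) (W : ℤ) (κ x : ℕ → ℕ),
  Su m ms M μ δ R N0 N K b l Lg q v lam W → Bx m M μ R N0 N lam Y κ x →
  ∀ y, R ≤ y + 50 * μ → y ≤ Y → 10 * μ * uo m R κ x y ≤ 42 * R + 10 * μ

/-- R6d (a start in every `l` rows). For `R - 50 μ ≤ y < Y`: old points alive are main points (see R6a) and give `≤ μ` each,
`x y < m (κ y) ≤ μ`, unstarted ones give `0`: `lam + 1 + y < μ (uo y + 1)`. With `Q y = ∑_{c < κ y} m c + x y`, U4 says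
`Q (y+1) = Q y + 1 + uo y + us y` for `y + 1 < Y`. So `Q (z+l) - Q z ≥ ∑_{z ≤ y < z+l} (1 + uo y) > l (R/2) / μ ≥ 2 μ`
(`y ≥ R/2`). If `κ z = κ (z + l)` then `Q (z+l) - Q z ≤ x (z+l) < μ`. -/
def GoalR6d : Prop := ∀ (m ms : ℕ → ℕ) (M μ δ R N0 N K b l Lg q v lam Y : ℕ) (W : ℤ) (κ x : ℕ → ℕ),
  Su m ms M μ δ R N0 N K b l Lg q v lam W → Bx m M μ R N0 N lam Y κ x →
  (∀ y, R ≤ y + 50 * μ → y < Y → lam + 1 + y < μ * (uo m R κ x y + 1)) ∧
  ∀ z, R ≤ z + 50 * μ → z + l < Y → κ z < κ (z + l)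

/-- R6e (number of the starts). `a = aa z`, `a' = aa z'`. `Q z' ≥ ∑_{c < a'} m c - μ`, `Q z ≤ ∑_{c < a} m c`, so (main points,
`a ≥ N0`) `(μ - δ) (a' - a) ≤ Q z' - Q z + μ`. By U4 `Q z' - Q z ≤ ∑_{z ≤ y < z'} (1 + uo y + us y)` (the loads grow by at most one:
exact rows, and `exY`). `∑ uo ≤ (z' - z) (4.2 R / μ + 1)` (R6a). `∑ us ≤ (z' - z) + μ`: a row `t` is counted for one `y` only,
`y = t + m (κ t) - x t`; if `κ t < N0` then `t < R - 60 M`, `y ≤ t + M`, too small; so `t > y - μ`. Multiply by `l`, `l R ≤ 32 μ²`: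
`l (μ - δ) (a' - a) ≤ (z' - z) (134.4 μ + 3 l) + 2 μ l`, and `δ`, `l` are tiny compared with `μ`. -/
def GoalR6e : Prop := ∀ (m ms : ℕ → ℕ) (M μ δ R N0 N K b l Lg q v lam Y : ℕ) (W : ℤ) (κ x : ℕ → ℕ),
  Su m ms M μ δ R N0 N K b l Lg q v lam W → Bx m M μ R N0 N lam Y κ x →
  ∀ z z', R ≤ z + 50 * μ → z ≤ z' → z' ≤ Y →
    l * (aa κ x z' - aa κ x z) ≤ 160 * (z' - z) + 3 * l

/-- R2 (stopping). Let `κ1, x1` be the play of R1, completed by UC (`Bx` with `Y = J`). By R6d with `z = J - v1` there is `τ`,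
`z < τ ≤ z + l`, with `κ1 (τ-1) < κ1 τ` (`l < v1`). `κ y = κ1 y`, `x y = x1 y` for `y < τ`; `κ y = κ1 τ`, `x y = na (m (κ1 τ)) R y` for `y ≥ τ`
(as E2, `Pool/Agent/Helper2/EW/E2.lean`). At `τ` the old points give the same, `x τ = na = 0`: `uz τ + x1 τ = ℓ τ`, `x1 τ < μ`.
`R - 60 M < τ`. -/
def GoalR2 : Prop := ∀ (m ms : ℕ → ℕ) (M μ δ R N0 N K b l Lg q v lam : ℕ) (W : ℤ),
  Su m ms M μ δ R N0 N K b l Lg q v lam W →
  ∃ (τ : ℕ) (κ x : ℕ → ℕ), Rp m M μ R N0 N l q v lam τ κ x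

/-- the hypotheses of the comparison with the virtual play: the play is stopped at `τ`, `g = κ τ`; the
points `N1 ≤ c < N` have multiplicities in `[μ - δ, μ]`, increasing; the points `c < N1` are dead at `τ` -/
structure Vh (m : ℕ → ℕ) (μ δ R N N1 g τ : ℕ) (κ x : ℕ → ℕ) : Prop where
  μ1 : 1 ≤ μ
  m1 : ∀ c < N, 1 ≤ m c ∧ m c + 2 ≤ R
  play : UPlay m R N κ x
  t1 : 1 ≤ τ
  tJ : τ + 1 + μ ≤ R
  kg : κ τ = g
  gN : g < N
  N1g : N1 ≤ g
  pa : ∀ y, τ ≤ y → y < R → κ y = g ∧ x y = na (m g) R y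
  main : ∀ c, N1 ≤ c → c < N → μ ≤ m c + δ ∧ m c ≤ μ
  mono : ∀ c c', N1 ≤ c → c ≤ c' → c' < N → m c ≤ m c'
  late : ∀ c, N1 ≤ c → c < g → μ ≤ ac R κ x c
  dead : ∀ c < N1, ∀ z, τ ≤ z → z < R → va (m c) R κ x c z = 0

/-- V1 (the virtual play). `κ' = vk`, `x' = vx`. For `N1 ≤ c < g`: `sc c ≤ τ`; `c` is virtually old at `y` iff
`sc c + m c ≤ y + μ`; as `sc` and `m` are nondecreasing this is an initial segment of `[N1, g)`, of length `κ' y`; so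
`c' < κ' y` iff `N1 + c'` is virtually old. `κ' y = g - N1` for `y ≥ τ`. If `c = N1 + κ' y < g` then `t = y + μ - m c < sc c ≤ τ`, `y < τ`.
`Play`: `lt`: `x t < m c`. `nat`: for `c < g` `na = 0`. `inc`: if `κ' (y+1) = κ' y`, `c < g`, `κ t = c`, `0 < x t`, then
`t + 1 < sc c`, so `κ (t+1) = c`, and `inc` of the real play. `κ' ≤ g - N1 < N - N1`, so `fin` is void. `lastx`: `na μ R (R-1) = μ`.
`sc'`: `#{y < R : κ' y ≤ c'} = #{y : y + μ < sc c + m c}`, `sc c ≥ ac c ≥ μ`. `ac'`: `κ' y = c'` and `0 < x' y` iff (`t = y + μ - m c`)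
`ac c ≤ t < sc c` (then the earlier points are virtually old: `t ≥ ac c ≥ sc c''`, `m c ≥ m c''`). Values, `z ≥ τ`: both are old;
`st κ' c' z = sc'`, and `y ↦ t = y + μ - m c` is a bijection between the rows counted in `mv` (`μ + y = m c + t`; `y ≤ t < sc c ≤ z`), and
`μ - (z - sc') = m c - (z - sc c)` (natural subtractions). -/
def GoalV1 : Prop := ∀ (m : ℕ → ℕ) (μ δ R N N1 g τ : ℕ) (κ x : ℕ → ℕ), Vh m μ δ R N N1 g τ κ x →
  Play μ R (N - N1) (vk m μ R N1 g κ) (vx m μ R N1 g κ x) ∧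
  (∀ y, τ ≤ y → y < R → vk m μ R N1 g κ y = g - N1 ∧ vx m μ R N1 g κ x y = na μ R y) ∧
  (∀ c, N1 ≤ c → c < g →
    sc R (vk m μ R N1 g κ) (c - N1) + μ = sc R κ c + m c ∧
    ac R (vk m μ R N1 g κ) (vx m μ R N1 g κ x) (c - N1) + μ = ac R κ x c + m c ∧
    ∀ z, τ ≤ z → z < R →
      va μ R (vk m μ R N1 g κ) (vx m μ R N1 g κ x) (c - N1) z = va (m c) R κ x c z)

/-- V2 (loads and starts). From V1. (1) In the row `z ≥ τ` the virtual points `c' ≥ g - N1` give `na μ R z`, the real ones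
`c ≥ g` give `na (m c) R z`; the difference is `min (μ - m c) (z + 1 + μ - R)` (natural subtractions); the points `c < N1` give `0`.
(2) V1 at `z = τ`. (3) `aa' z` is the number of the `c'` with `ac' c' ≤ z` (H1.1), for `c' = g - N1` and later ones
`ac' > J ≥ τ`. (4) `∑_{z < R} lz z = (N - N1) T μ` (H2), `∑_{z < R} uz z = ∑_{c < N} T (m c)` (U1.9), and (1). -/
def GoalV2 : Prop := ∀ (m : ℕ → ℕ) (μ δ R N N1 g τ : ℕ) (κ x : ℕ → ℕ), Vh m μ δ R N N1 g τ κ x →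
  (∀ z, τ ≤ z → z < R → lz μ R (N - N1) (vk m μ R N1 g κ) (vx m μ R N1 g κ x) z =
    uz m R N κ x z + vd m μ R g N z) ∧
  oo μ R (vk m μ R N1 g κ) (vx m μ R N1 g κ x) τ = uo m R κ x τ ∧
  (∀ z ≤ τ, aa (vk m μ R N1 g κ) (vx m μ R N1 g κ x) z =
    ((Ico N1 g).filter (fun c => ac R κ x c + m c ≤ z + μ)).card) ∧
  ∑ z ∈ range τ, lz μ R (N - N1) (vk m μ R N1 g κ) (vx m μ R N1 g κ x) z +
      ∑ z ∈ Ico τ R, (uz m R N κ x z + vd m μ R g N z) = (N - N1) * T μ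

/-- V0 (`Vh` holds). `N1 = aa κ x (R - 56 μ)`, `g = κ τ`. `N0 ≤ κ (R - 60 M) ≤ N1`. `N1 ≤ κ (R - 56 μ) + 1 ≤ κ (R - 56 μ + l) ≤ g` by
R6d (with `50` replaced by nothing: use it at `z = R - 50 μ`, `N1 ≤ aa (R - 50 μ) ≤ κ z + 1 ≤ κ (z + l) ≤ κ (τ - 1) ≤ g`;
`Bx` holds for the stopped play with `Y = τ`). `late`: `c ≥ N1` has not started at `R - 56 μ` (U1.1), so `ac c > R - 56 μ ≥ μ`.
`dead`: `c < N1` has `ac c ≤ R - 56 μ`; if `c ≥ N0` then `ac c + m c ≤ R - 55 μ ≤ τ`; if `c < N0` then `sc c ≤ R - 60 M`, `ac c + m c ≤ R - 59 M ≤ τ`;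
`c < κ τ`, U1.6. -/
def GoalV0 : Prop := ∀ (m ms : ℕ → ℕ) (M μ δ R N0 N K b l Lg q v lam τ : ℕ) (W : ℤ) (κ x : ℕ → ℕ),
  Su m ms M μ δ R N0 N K b l Lg q v lam W → Rp m M μ R N0 N l q v lam τ κ x →
  Bx m M μ R N0 N lam τ κ x ∧ N0 ≤ aa κ x (R - 56 * μ) ∧
    Vh m μ δ R N (aa κ x (R - 56 * μ)) (κ τ) τ κ x

/-- V3s (starts of the virtual play). By V2(3) `aa' z' - aa' z` is the number of the `c ∈ [N1, g)` with
`z < ac c - δ_c ≤ z'` (`δ_c = μ - m c`). Let `c1` be the least and `c2` the largest of them (nothing to do if there is none).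
`ac` is nondecreasing, `δ_c` nonincreasing: `z + δ_{c1} < ac c1`, `ac c2 ≤ z' + δ_{c2} ≤ z' + δ_{c1}`, `ac c2 ≤ τ`. So their number is at most
`aa (min (z' + δ_{c1}) τ) - aa (z + δ_{c1})`; R6e with `Y = τ`. -/
def GoalV3s : Prop := ∀ (m ms : ℕ → ℕ) (M μ δ R N0 N N1 K b l Lg q v lam τ : ℕ) (W : ℤ)
  (κ x : ℕ → ℕ), Su m ms M μ δ R N0 N K b l Lg q v lam W → Bx m M μ R N0 N lam τ κ x →
  Vh m μ δ R N N1 (κ τ) τ κ x →
  ∀ z z', R ≤ z + 50 * μ → z ≤ z' → z' ≤ τ →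
    l * (aa (vk m μ R N1 (κ τ) κ) (vx m μ R N1 (κ τ) κ x) z' -
      aa (vk m μ R N1 (κ τ) κ) (vx m μ R N1 (κ τ) κ x) z) ≤ 160 * (z' - z) + 3 * l

/-- V3d (natural deaths). `w = R - 1 - y > 16 v1`, `w ≤ μ + v1` (`y ≥ τ`). For `k` with `v1 ≤ k l` and
`(k+2) l + δ ≤ w` let `z = J - (k+1) l` (`z + l < τ`: `J - k l ≤ J - v1 < τ`; `z - l ≥ R - 50 μ`), `c_k = κ z`. R6d: `κ (z-l) < c_k < κ (z+l)`, so
`z - l < ac (c_k) ≤ sc (c_k) ≤ z + l = J - k l`; `ac' = ac - δ_c` (V1), so `k l ≤ J - ac' < (k+2) l + δ ≤ w`: the virtual point is alive at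
`y` and gives `T (J - ac') ≥ T (k l)` to `Dd y`. The `c_k` are distinct. So
`2 Dd ≥ l² ∑ k² ≥ (1/(3 l)) ((w - δ - 3 l)³ - (v1 + l)³)`, and `δ ≤ v1/20 ≤ w/320`, `v1 < w/16`, `l ≤ 2560 v1 / b` is tiny: the bracket is
`≥ 0.98 w³`, `8 l Dd ≥ (8/6) * 0.98 w³ ≥ w³`. (As E7, `Pool/Agent/Helper77/EW/E7.lean`.) -/
def GoalV3d : Prop := ∀ (m ms : ℕ → ℕ) (M μ δ R N0 N N1 K b l Lg q v lam τ : ℕ) (W : ℤ)
  (κ x : ℕ → ℕ), Su m ms M μ δ R N0 N K b l Lg q v lam W → Rp m M μ R N0 N l q v lam τ κ x →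
  Bx m M μ R N0 N lam τ κ x → Vh m μ δ R N N1 (κ τ) τ κ x → N1 ≤ aa κ x (R - 56 * μ) →
  ∀ y, τ ≤ y → y < R → 16 * (2 ^ q * v) < R - 1 - y → (R - 1 - y) ^ 3 ≤
    8 * l * Dd μ R (vk m μ R N1 (κ τ) κ) (vx m μ R N1 (κ τ) κ x) y

/-- V3u (number of the points which have not started). `∑_{z<R} uz z = ∑ T (m c)` (U1.9) and `tot` give
`∑_{τ ≤ z < R} uz z = ∑_{τ ≤ z < R} (lam + 1 + z) - ∑ T (ms i) - W ≤ (R - τ) (lam + R) + 2 R`, and the points `c ≥ g` give `T (m c) ≥ T (μ - δ)`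
each to the rows `≥ τ` (they give `na (m c) R z`, which is `0` before `τ`). `R - τ ≤ 1.01 μ`, `lam ≤ R/200`, `2 T (μ - δ) ≥ 0.99 μ²`:
`N - g ≤ 2.1 R / μ`, `l R ≤ 32 μ²`. -/
def GoalV3u : Prop := ∀ (m ms : ℕ → ℕ) (M μ δ R N0 N K b l Lg q v lam τ : ℕ) (W : ℤ) (κ x : ℕ → ℕ),
  Su m ms M μ δ R N0 N K b l Lg q v lam W → Rp m M μ R N0 N l q v lam τ κ x →
  l * (N - κ τ) ≤ 140 * μ

/-- VA (the virtual play satisfies `Vp`). Assembly of V0, V1, V2, V3s, V3d, V3u, R6a, with `N1 = aa κ x (R - 56 μ)`, `g = κ τ`,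
`ℓ = vl m μ R N1 g N lam τ κ x`. `i0`, `i1`, `i2`: `vd y = 0` for `y ≤ J`, every summand grows by at most one per row, and is
constant for `y ≥ J + δ`. `ll`: `vd ≤ (N - g) δ ≤ 140 μ δ ≤ R / 100` (`20 δ ≤ v1`, `1280 v1 ≤ b l ≤ μ / 2^33`, `4 μ² ≤ l R`: with `l`:
`l (N-g) δ ≤ 140 μ δ ≤ l R / 100`), `lam ≤ R / 200`, `τ ≥ R - 2 μ ≥ 0.98 R`. `t0`, `t3`: V2(1) at `τ`, `vd τ = 0`. `oa`: V2(2), R6a.
`tot`: V2(4), `uz z = lam + 1 + z` for `z < τ`, `∑ uz = ∑ T (m c)` and `Su.tot`. `vk τ = g - N1 < N - N1`,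
`(N - N1) - vk τ = N - g`. -/
def GoalVA : Prop := ∀ (m ms : ℕ → ℕ) (M μ δ R N0 N K b l Lg q v lam τ : ℕ) (W : ℤ) (κ x : ℕ → ℕ),
  Su m ms M μ δ R N0 N K b l Lg q v lam W → Rp m M μ R N0 N l q v lam τ κ x →
  Vh m μ δ R N (aa κ x (R - 56 * μ)) (κ τ) τ κ x ∧
  Vp μ δ R (N - aa κ x (R - 56 * μ)) K b l Lg q v τ (∑ i ∈ range K, (T (ms i) : ℤ)) W
    (vl m μ R (aa κ x (R - 56 * μ)) (κ τ) N lam τ κ x)
    (vk m μ R (aa κ x (R - 56 * μ)) (κ τ) κ) (vx m μ R (aa κ x (R - 56 * μ)) (κ τ) κ x)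

/-- BT (back to a real play). `κ, x` is a virtual play which agrees with the stopped one before the row `s > J + δ`; the
real play is `κ' = bk`, `x' = bx`. For `y ≥ s`: `κ y ≥ κ (s-1) = g - N1` (V1), so `N1 + κ y ≥ g`; `x y ≥ na μ R y = y - J > δ`, so
`x' y = x y - δ_c > 0`, `c = N1 + κ y`, and `na (m c) R y = y - J - δ_c ≤ x' y`. `UPlay`: `lt`: `x y < μ`; `inc`: from the virtual play, also
between `s - 1` and `s`: if `κ' s = g = κ' (s-1)` then `x' (s-1) = na (m g) R (s-1)` and `x s > x (s-1) = na μ R (s-1)`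
(`na μ R (s-1) > 0`, as `s - 1 > J`… if `δ = 0` and `s - 1 = J` then `x' (s-1) = 0`, nothing to show); `mono` at `s - 1`; `lastκ`, `lastx`
(`R - 2 ≥ s`; `x (R-1) = μ`). Values: a point `c < g` is old at `τ`, its values depend on the rows `< τ` only, so they are those of the stopped
play, and V1 compares them with the virtual ones (`z ≥ τ`). For `c ≥ g` and `τ ≤ z < s`: natural values in both. For
`c ≥ g`, `z ≥ s`: virtual value = real value `+ δ_c`: if `κ z < c - N1` both are natural (`na μ R z = na (m c) R z + δ_c` as `z > J + δ`); if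
`κ z = c - N1` by definition; if `c` is old: the same `sc ≥ s`, the rows `t` counted in `mv` are `≥ s` (for `t < s` the value
is natural and `μ + t < na μ R t + z` would mean `z ≥ R`), the same in both plays (`μ + t < x t + z` iff `m c + t < x' t + z`), and
the virtual value is `≥ ac + μ - z > δ_c` (`ac > J`… in any case `≥ na μ R z`), so there is no truncation. `vd z = ∑_{c ≥ g} δ_c` for `z ≥ J + δ`. -/
def GoalBT : Prop := ∀ (m : ℕ → ℕ) (μ δ R N N1 g τ s : ℕ) (κ2 x2 κ x : ℕ → ℕ),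
  Vh m μ δ R N N1 g τ κ2 x2 → R + δ < s + 1 + μ → s + 2 ≤ R → Play μ R (N - N1) κ x →
  (∀ y < s, κ y = vk m μ R N1 g κ2 y ∧ x y = vx m μ R N1 g κ2 x2 y) →
  UPlay m R N (bk s N1 κ2 κ) (bx m μ s N1 (N - N1) x2 κ x) ∧
  (∀ z < τ, uz m R N (bk s N1 κ2 κ) (bx m μ s N1 (N - N1) x2 κ x) z = uz m R N κ2 x2 z) ∧
  (∀ z, τ ≤ z → z < R → lz μ R (N - N1) κ x z =
    uz m R N (bk s N1 κ2 κ) (bx m μ s N1 (N - N1) x2 κ x) z + vd m μ R g N z)

end Pool.Agent.Helper18.UW
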