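import Mathlib
import Pool.Agent.Helper18.UW.GoalsA
import Pool.Agent.Helper18.UW.GoalsG
import Pool.Agent.Helper18.UW.GoalsR

/-!
# Project UW: intermediate statements (packets), prices, numbers, renumbering; the window theorem

Every packet: create `Pool/Agent/<You>/UW/<Name>.lean` with `theorem goalX : GoalX` (goals used are
hypotheses).
-/

set_option autoImplicit false

namespace Pool.Agent.Helper18.UW

open Finset
open Pool.Agent.Lead.Sh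
open Pool.Agent.Helper43.Hw (T na va lz Play aa ac sc oo sk U Dd Sd Pn nx bb np)
open Pool.Agent.Helper43.Gm (Pri st mv nn)
open Pool.Agent.Helper18.EW
open Pool.Agent.Helper18.SG (GoalA2)

/-- the multiplicity of the point `c`: ordinary for `c < N`, special for `c ≥ N` -/
def mu (m ms : ℕ → ℕ) (N c : ℕ) : ℕ := if c < N then m c else ms (c - N)

/-- conditions given to the row `z` by the point `c`: ordinary for `c < N`, special for `c ≥ N` -/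
def combu (m ms : ℕ → ℕ) (R N τ s : ℕ) (κ x e P : ℕ → ℕ) (c z : ℕ) : ℕ :=
  if c < N then va (m c) R κ x c z else gV (ms (c - N)) R 1 τ s (fun _ => e (c - N)) P z

/-- PGu (prices). As PG (`Pool/Agent/Helper16/EW/PG.lean`), with `m c` in place of `μ` for the ordinary point
`c` and `ms i` in place of `μ` for the special point `i` (`gV (ms i) R 1 …` is the single term
`va (ms i) R (gk s (fun _ => e i) P 0) (gx (ms i) τ s (fun _ => e i) P 0) 0 z`). `P' t = 2 (m (κ t) - x t) + 1` if `0 < x t`,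
`P' t = 2 (m (κ t) + R - t) + 1` otherwise (rows outside of `[τ, s)`); ranks and slopes as in PG. `x t ≤ m (κ t)` if `κ t < N`
(`lt`, `lastx`). For the special point `i` use `UGrp.one`. -/
def GoalPGu : Prop := ∀ (m ms : ℕ → ℕ) (μ δ R N K τ s E : ℕ) (κ x e P : ℕ → ℕ),
  (∀ c < N, 1 ≤ m c ∧ m c + 2 ≤ R) → 2 ≤ R → UPlay m R N κ x → UGrp μ δ R K τ s E ms e P →
  (∀ t, τ ≤ t → t < s → κ t = κ τ ∧ x t = na (m (κ τ)) R t) → κ (τ - 1) < κ τ → κ τ < N →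
  ∃ π ε : ℕ → ℤ, Pri R (mu m ms N) (combu m ms R N τ s κ x e P) π ε (N + K)

/-- the conclusion of TriU -/
def TriUc : Prop := ∀ (m ms : ℕ → ℕ) (μ δ d h N K τ s E : ℕ) (κ x e P : ℕ → ℕ), 2 ≤ h → h ≤ d + 1 →
  (∀ c < N, 1 ≤ m c ∧ m c + 2 ≤ h) → UPlay m h N κ x → UGrp μ δ h K τ s E ms e P →
  (∀ t, τ ≤ t → t < s → κ t = κ τ ∧ x t = na (m (κ τ)) h t) → κ (τ - 1) < κ τ → κ τ < N →
  ((∀ z < h, d + 2 - h + z ≤ uz m h N κ x z + uV h K τ s ms e P z) →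
    Inj (triZ d h) (rows (mu m ms N) (range (N + K)))) ∧
  ((∀ z < h, uz m h N κ x z + uV h K τ s ms e P z ≤ d + 2 - h + z) →
    Ind (triZ d h) (rows (mu m ms N) (range (N + K))))

/-- TriU (from the game to the trapezoid). As TriZ (`Pool/Agent/Helper4/EW/TriZ.lean`) with `p = 1` (so GoalS, `sig`, SI are
not needed): the row `j` of `triZ d h` (`d.2 = j`) has `d + 1 - j` cells, `j < h`; it is played at `y = h - 1 - j`, where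
`d + 2 - h + y = d + 1 - j`. `∑_{c < N + K} combu c z = uz z + uV z`; `∑_{z < h} uz z = ∑ T (m c)` (U1.9), `∑ uV z = ∑ T (ms i)` (UG). -/
def GoalTriU : Prop := GoalA2 → GoalPGu → GoalU1 → GoalUG → TriUc

/-- NU (choice of the numbers). `l = 1` if `4 μ² ≤ R`, otherwise `l = (4 μ² - 1) / R + 1`: `4 μ² ≤ l R ≤ 28 μ²`, so
`2^115 Lg³ l ≤ μ`. `b = μ / (2^33 Lg² l)`: `b ≥ 2^82 Lg`, `μ ≤ 2^34 Lg² l b`. `B = b l`. `l W ≥ 2^82 Lg² μ` (multiply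
`2^80 Lg² R ≤ μ W` by `l`), `l W ≤ 56 μ²`. `w` = the larger of `wA`, `wB`, where `wA` is the least `w` with
`2^26 μ ≤ w (B + w)`, `wB` the least with `2^14 l W ≤ w² (B + w)`. `wA ≤ 2^60 Lg² + 1` (`B ≥ μ / (2^34 Lg²)`), so
`wA (2^27 μ + B wA) ≤ 2^89 Lg² μ ≤ 2^20 l W`. If `w = wB`: `w ≥ 3` (`B ≤ μ / 2^33`), `w² (B + w) ≤ 8 (w-1)² (B + w - 1) ≤ 2^17 l W`, and
`2^27 μ w ≤ 2 w² (B + w)`. `4 w ≤ μ`: `(w-1)³ ≤ 2^14 l W ≤ 2^20 μ²`, resp. `2^60 Lg² + 1 ≤ μ / 4`. `w ≥ 3` in both cases.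
`v` = the smaller of `(w - 1) / 2`, `B / 1280` (`≥ 1`), `q = Nat.log 2 (B / (1280 v))`: `1280 * 2^q v ≤ B < 2560 * 2^q v`.
`2^q ≤ μ`, `128 μ ≤ 2^Lg`, so `q + 7 ≤ Lg`. `20 δ ≤ 2^q v`: `2^q v ≥ B / 2560 ≥ μ / (2^46 Lg²)`. -/
def GoalNU : Prop := ∀ μ δ R W Lg : ℕ, 128 * μ ≤ 2 ^ Lg → 1 ≤ R → 2 ^ 120 * Lg ^ 3 * μ ≤ R →
  R ≤ 28 * μ ^ 2 → 2 ^ 60 * Lg ^ 2 * δ ≤ μ → W ≤ 2 * R → 2 ^ 80 * Lg ^ 2 * R ≤ μ * W →
  ∃ l b q v w : ℕ, Par4 μ R (b * (q + 1)) b l Lg q ∧ 20 * δ ≤ 2 ^ q * v ∧ 4 * μ ^ 2 ≤ l * R ∧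
    l * R ≤ 32 * μ ^ 2 ∧ 1 ≤ v ∧ 1280 * (2 ^ q * v) ≤ b * l ∧ b * l ≤ 2560 * (2 ^ q * v) ∧
    2 * v < w ∧ 4 * w ≤ μ ∧ 2 ^ 26 * μ ≤ w * (b * l + w) ∧ 2 ^ 14 * l * W ≤ w ^ 2 * (b * l + w) ∧
    w * (2 ^ 27 * μ + b * l * w) ≤ 2 ^ 20 * l * W ∧
    2 ^ 35 * (b * (q + 1)) * μ ≤ R

/-- RL (renumbering). Enumerate `A \ Cl` in any order, then `Cl` with increasing multiplicities, the last `K` points of
`Cl` are the special ones. The transfer of `Inj`, `Ind` as for Rx (`EW.GoalRx`, `Pool/Agent/Helper*/EW/Rx.lean`). -/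
def GoalRL : Prop := ∀ (A Cl : Finset ℕ) (m : ℕ → ℕ) (K : ℕ), Cl ⊆ A → K ≤ Cl.card →
  ∃ (m' ms : ℕ → ℕ) (N0 N : ℕ), N0 ≤ N ∧
    (∀ c < N0, ∃ k ∈ A, m' c = m k) ∧
    (∀ c, N0 ≤ c → c < N → ∃ k ∈ Cl, m' c = m k) ∧
    (∀ i < K, ∃ k ∈ Cl, ms i = m k) ∧
    (∀ c c', N0 ≤ c → c ≤ c' → c' < N → m' c ≤ m' c') ∧
    (∑ c ∈ range N0, (m' c + 1).choose 2 + ∑ k ∈ Cl, (m k + 1).choose 2 =
      ∑ k ∈ A, (m k + 1).choose 2) ∧
    (∑ c ∈ range N, (m' c + 1).choose 2 + ∑ i ∈ range K, (ms i + 1).choose 2 =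
      ∑ k ∈ A, (m k + 1).choose 2) ∧
    (∀ D : Finset (ℕ × ℕ), (Inj D (rows (mu m' ms N) (range (N + K))) → Inj D (rows m A)) ∧
      (Ind D (rows (mu m' ms N) (range (N + K))) → Ind D (rows m A)))

end Pool.Agent.Helper18.UW
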