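import Mathlib
import Pool.Agent.Helper18.UW.Defs

/-!
# Project UW: intermediate statements (packets), the zone (other constants than in EW)

Every packet: create `Pool/Agent/<You>/UW/<Name>.lean` with `theorem goalX : GoalX` (goals used are
hypotheses). The statements are those of `Pool/Agent/Helper18/EW/Goals2.lean` with `Par4`, `Zon4` instead of
`Par`, `Zon` and other constants; the proofs can be copied from the files of project EW: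
Z9 `Helper33/EW/Z9.lean`, Z10a `Helper31/EW/Z10a.lean`, Z10b `Helper83/EW/Z10b.lean`, Z10 `Helper3/EW/Z10.lean`,
Z15 `Helper50/EW/Z15.lean`. The facts E3, Z8, Z11, Z12 (which do not contain `Par`) are used unchanged
(`EW.GoalE3`, `EW.GoalZ8`, `EW.GoalZ11`, `EW.GoalZ12` as hypotheses).
-/

set_option autoImplicit false

namespace Pool.Agent.Helper18.UW

open Finset
open Pool.Agent.Helper43.Hw (T na va lz Play aa ac sc oo sk U Dd Sd Pn nx bb np)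
open Pool.Agent.Helper18.EW

/-- Z9t. As Z9. `(q_c - 1) (b l + X) ≤ 2^14 l w`, `X = R - 1 - max B_c`; with `j = κ y - 1 - c` the hypothesis at
`z = max B_c` gives `l (j + 1) ≤ 84 X + 3 K l`. If `j + 1 ≤ 6 K`: the sum of `q_c - 1` over these `j` is
`≤ 6 K * 2^14 w / b ≤ 6 * 2^14 w Lg`. If `j + 1 > 6 K`: `l (j+1) ≤ 168 X`, `(q_c - 1) (j + 1) ≤ 168 * 2^14 w`; the sum
is `≤ 168 * 2^14 w Lg`. -/
def GoalZ9t : Prop := ∀ (μ R N K b l Lg β s y : ℕ) (W : ℤ) (L o k D S n κ x : ℕ → ℕ), 1 ≤ μ →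
  μ + 2 ≤ R → 1 ≤ l → 1 ≤ b → 1 ≤ K → K ≤ b * Lg → Ext μ R N K b β s W L o k D S n →
  Play μ R N κ x → Ex μ R N L κ x y → s ≤ y → y + 2 ≤ R → Pau μ R s κ x →
  (∀ z, s ≤ z → z < y →
    b * l + (R - 1 - z) + 2 ^ 14 * l * (N - κ z) ≤ 2 ^ 14 * l * (β + o z + oo μ R κ x z)) →
  (∀ z, s ≤ z → z ≤ y → l * (κ y - κ z) ≤ 84 * (R - 1 - z) + 3 * K * l) →
  κ y - κ s < 2 ^ Lg →
  ((range y).filter (fun t => R - 1 - μ < t ∧ κ t < κ y ∧ 0 < x t ∧ 0 < U μ R x t ∧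
    U μ R x t ≤ R - 1 - y)).card ≤ (κ y - κ s) + 200 * 2 ^ 14 * (R - 1 - y) * Lg

/-- Z10at. As Z10a. First: `l np X ≤ 160 X + 3 l`, `n X ≤ K`, `l |W| ≤ w² (b l + w) / 2^14 ≤ T w (b l + X) / 2^13`:
`2 l (κ y - κ z) ≤ 160 X + 3 l + K l + (b l + X) / 2^13 ≤ 2 (84 X + 3 K l)` (`1 ≤ b ≤ K`). Second: with `z = s`
`l (κ y - κ s) ≤ 84 μ + 3 K l ≤ 88 μ < 2^Lg l`, so Z9t applies. Third: as in Z10a. -/
def GoalZ10at : Prop := ∀ (μ R N K b l Lg q β s : ℕ) (W : ℤ) (L o k D S n κ x : ℕ → ℕ) (y : ℕ),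
  Zon4 μ R N K b l Lg q β s W L o k D S n κ x y →
  (∀ z, s ≤ z → z ≤ y → l * (κ y - κ z) ≤ 84 * (R - 1 - z) + 3 * K * l) ∧
  l * ((range y).filter (fun t => R - 1 - μ < t ∧ κ t < κ y ∧ 0 < x t ∧ 0 < U μ R x t ∧
    U μ R x t ≤ R - 1 - y)).card ≤ 84 * μ + 3 * K * l + 200 * 2 ^ 14 * l * (R - 1 - y) * Lg ∧
  l * Sd μ R κ x y ≤ (R - 1 - y) *
    (l * (R - 1 - y) + 84 * μ + 3 * K * l + 200 * 2 ^ 14 * l * (R - 1 - y) * Lg)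

/-- Z10bt. As Z10b (the same proof). -/
def GoalZ10bt : Prop := ∀ (μ R N K b l Lg q β s : ℕ) (W : ℤ) (L o k D S n κ x : ℕ → ℕ) (y : ℕ),
  Zon4 μ R N K b l Lg q β s W L o k D S n κ x y →
  R - 1 - μ < ac R κ x (κ y) ∧
  kk μ R κ x y * (b * l + (R - 1 - y)) ≤ 2 ^ 14 * l * (x y - na μ R y) ∧
  x y - na μ R y < R - 1 - y

/-- Z10t. As Z10. `l (β + o + oo - (N - κ y)) T w ≥ 3 w² (b l + w) / 2^14 - w * H`, with
`H = l w + 84 μ + 3 K l + 200 * 2^14 l w Lg + K l + 2 w b l / 2^24 + 3 l w`. Since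
`84 μ + 4 K l ≤ 88 μ ≤ 88 w (b l + w) / 2^23`, `200 * 2^14 l w Lg ≤ 200 w b l / 2^28`, `4 l w ≤ 4 w b l / 2^42`:
`H ≤ w (b l + w) / 2^14`, and the right side is `≥ w² (b l + w) / 2^14 ≥ (b l + w) T w / 2^14`. -/
def GoalZ10t : Prop := ∀ (μ R N K b l Lg q β s : ℕ) (W : ℤ) (L o k D S n κ x : ℕ → ℕ) (y : ℕ),
  Zon4 μ R N K b l Lg q β s W L o k D S n κ x y →
  b * l + (R - 1 - y) + 2 ^ 14 * l * (N - κ y) ≤ 2 ^ 14 * l * (β + o y + oo μ R κ x y)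

/-- Z15t (the zone theorem). As Z15. In (4): `Pn y ≤ w + q + kk`, `kk ≤ w`,
`l q ≤ 84 μ + 3 K l + 200 * 2^14 l w Lg`, so `l w (Pn + K + kk + 4 w + 2) + w (w + 1) l b / 2^24`
`≤ w (84 μ + 4 K l + 10 l w + 200 l w b / 2^28 + 2 l w b / 2^24) < w (128 μ + b l w / 2^20) ≤ l |W|`. -/
def GoalZ15t : Prop := ∀ (μ R N K b l Lg q β s w : ℕ) (W : ℤ) (L o k D S n κ x : ℕ → ℕ),
  Par4 μ R K b l Lg q → 1 ≤ β → Ext μ R N K b β s W L o k D S n → Play μ R N κ x →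
  Gr μ R N (s - 1) L κ x → 1 ≤ s → Ex μ R N L κ x (s - 1) → bb μ R N κ x (s - 1) ≤ L s →
  Pau μ R s κ x → (∀ X ≤ μ, l * np μ R N κ x X ≤ 160 * X + 3 * l) → 1 ≤ w → s + 1 + w ≤ R →
  4 * w ≤ μ →
  (∀ y, s ≤ y → y < R → w ≤ R - 1 - y → (R - 1 - y) ^ 2 * (b * l + (R - 1 - y)) ≤
    4096 * l * (Dd μ R κ x y + D y)) →
  2 ^ 26 * μ ≤ w * (b * l + w) → 2 ^ 14 * l * |W| ≤ ((w ^ 2 * (b * l + w) : ℕ) : ℤ) →
  ((w * (2 ^ 27 * μ + b * l * w) : ℕ) : ℤ) ≤ 2 ^ 20 * l * |W| →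
  (0 ≤ W ∧ ∀ z < R, lz μ R N κ x z ≤ L z) ∨ (W ≤ 0 ∧ ∀ z < R, L z ≤ lz μ R N κ x z)

end Pool.Agent.Helper18.UW
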