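import Mathlib
import Pool.Agent.Helper18.UW.GoalsP

/-! Project UW: the window theorem (assembly). -/

set_option autoImplicit false

namespace Pool.Agent.Helper18.UW

open Finset
open Pool.Agent.Lead.Sh
open Pool.Agent.Helper43.Hw (T na va lz Play aa ac sc oo sk U Dd Sd Pn nx bb np)
open Pool.Agent.Helper43.Gm (Pri)
open Pool.Agent.Helper18.EW

theorem two_sum_len (lam R : ℕ) :
    2 * ∑ z ∈ range R, (lam + 1 + z) = R * (2 * lam + R + 1) := by
  induction R with
  | zero => simp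
  | succ R ih =>
    rw [sum_range_succ, mul_add, ih]
    ring

theorem goalFU (hRL : GoalRL) (hNU : GoalNU) (hUG : GoalUG) (hR2 : GoalR2) (hVA : GoalVA)
    (hG : GoalGameV) (hBT : GoalBT) (hTr : TriUc) (hF1 : GoalF1Z) : FUc := by
  intro A m M μ δ Lg d h W hA hμM hLg h1 hhd hlam hM h28 hδ hW hW2 hWl hcl
  set Cl := A.filter (fun k => μ ≤ m k + δ ∧ m k ≤ μ) with hCl
  have hMle : M ≤ h := by
    have hLg1 : 1 ≤ Lg := by
      rcases Nat.eq_zero_or_pos Lg with h0 | h0
      · exfalso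
        rw [h0] at hLg
        have : μ = 0 := by omega
        rw [this] at h28
        omega
      · exact h0
    have e1 : 1 ≤ 2 ^ 120 * Lg ^ 3 := Nat.one_le_iff_ne_zero.2 (by positivity)
    calc M = 1 * M := by ring
      _ ≤ 2 ^ 120 * Lg ^ 3 * M := by gcongr
      _ ≤ h := hM
  have hLgM : 2 ^ 120 * M ≤ h := by
    have hLg1 : 1 ≤ Lg := by
      rcases Nat.eq_zero_or_pos Lg with h0 | h0
      · exfalso
        rw [h0] at hLg
        have : μ = 0 := by omega
        rw [this] at h28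
        omega
      · exact h0
    calc 2 ^ 120 * M = 2 ^ 120 * 1 * M := by ring
      _ ≤ 2 ^ 120 * Lg ^ 3 * M := by
          have : 1 ≤ Lg ^ 3 := Nat.one_le_pow _ _ hLg1
          gcongr
      _ ≤ h := hM
  have hμR : 2 ^ 120 * Lg ^ 3 * μ ≤ h := le_trans (by gcongr) hM
  obtain ⟨l, b, q, v, w, par, d1, lo, hi, hv1, vb, vc, hvw, h4w, hw1, hw2, hw3, hKμ⟩ :=
    hNU μ δ h W Lg hLg h1 hμR h28 hδ hW2 hWl
  set K := b * (q + 1) with hK
  have hμ1 : 1 ≤ μ := by omega
  have hb42 : 2 ^ 42 ≤ b := by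
    have := par.b1
    have := par.L1
    nlinarith
  have hμbig : 2 ^ 75 ≤ μ := by
    have h2 := par.b2
    have hq : 1 ≤ (q + 1) ^ 2 := Nat.one_le_pow _ _ (by omega)
    have hl := par.l1
    calc 2 ^ 75 = 2 ^ 33 * 2 ^ 42 * 1 * 1 := by norm_num
      _ ≤ 2 ^ 33 * b * (q + 1) ^ 2 * l := by gcongr
      _ ≤ μ := h2
  have hch : ∀ k, (k + 1).choose 2 = T k := fun k =>
    (Pool.Agent.Helper43.Hw.T_choose k).symm
  have hTμ : T μ ≤ μ ^ 2 := by
    have := Pool.Agent.Helper43.Hw.two_T μ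
    nlinarith
  -- the number of the points in the cluster
  have hKcard : K ≤ Cl.card := by
    by_contra hcon
    push Not at hcon
    have e1 : ∑ k ∈ Cl, (m k + 1).choose 2 ≤ ∑ _k ∈ Cl, μ ^ 2 := by
      apply sum_le_sum
      intro k hk
      rw [hCl, mem_filter] at hk
      rw [hch]
      exact (Pool.Agent.Helper43.Hw.T_mono hk.2.2).trans hTμ
    rw [sum_const, smul_eq_mul] at e1
    have e2 : Cl.card * μ ^ 2 ≤ K * μ ^ 2 := by gcongr
    have e3 : 2 ^ 35 * (K * μ ^ 2) ≤ h * μ := by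
      calc 2 ^ 35 * (K * μ ^ 2) = 2 ^ 35 * K * μ * μ := by ring
        _ ≤ h * μ := by gcongr
    have e4 : h * μ ≤ M * (d + 1) := by
      calc h * μ = μ * h := by ring
        _ ≤ M * (d + 1) := by gcongr
    have e5 : 62 * M * (d + 1) = 62 * (M * (d + 1)) := by ring
    have e6 : 0 < M * (d + 1) := by
      have : 0 < M := by omega
      positivity
    omega
  obtain ⟨m', ms, N0, N, hN0, hpre, hmain, hspec, hmono, hsum1, hsum2, htr⟩ :=
    hRL A Cl m K (filter_subset _ _) hKcard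
  have hCl' : ∀ k ∈ Cl, μ ≤ m k + δ ∧ m k ≤ μ := by
    intro k hk
    rw [hCl, mem_filter] at hk
    exact hk.2
  -- the number of the cells
  obtain ⟨-, -, -, -, hF⟩ := hF1 1 d h le_rfl h1 hhd
  set lam := d + 1 - h with hlamd
  have hcells : ∑ z ∈ range h, (lam + 1 + z) = (triZ d h).card := by
    have e1 := two_sum_len lam h
    have e2 : d + 1 = lam + h := by omega
    have e3 : d + 2 = lam + h + 1 := by omega
    rw [e2, e3, show lam + h + 1 - h = lam + 1 by omega] at hF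
    have e5 : h * (2 * lam + h + 1) + lam * (lam + 1) = (lam + h) * (lam + h + 1) := by ring
    omega
  set W0 : ℤ := ((triZ d h).card : ℤ) - ∑ k ∈ A, ((m k + 1).choose 2 : ℤ) with hW0
  have hsuT : (∑ c ∈ range N, T (m' c) : ℕ) + ∑ i ∈ range K, T (ms i) =
      ∑ k ∈ A, (m k + 1).choose 2 := by
    rw [← hsum2]
    simp only [hch]
  have su : Su m' ms M μ δ h N0 N K b l Lg q v lam W0 := by
    refine ⟨par, d1, lo, hi, hv1, vb, vc, hμM, ?_, hlam, ?_, hN0, ?_, ?_, hmono, ?_, ?_, ?_⟩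
    · omega
    · rw [hW]; exact_mod_cast hW2
    · intro c hc
      obtain ⟨k, hk, e⟩ := hpre c hc
      rw [e]; exact hA k hk
    · intro c hc1 hc2
      obtain ⟨k, hk, e⟩ := hmain c hc1 hc2
      rw [e]; exact hCl' k hk
    · intro i hi
      obtain ⟨k, hk, e⟩ := hspec i hi
      rw [e]; exact hCl' k hk
    · have e1 : (∑ z ∈ range h, ((lam + 1 + z : ℕ) : ℤ)) = ((triZ d h).card : ℤ) := by
        rw [← hcells]; push_cast; rfl
      have e2 : (∑ c ∈ range N, (T (m' c) : ℤ)) + ∑ i ∈ range K, (T (ms i) : ℤ) =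
          ∑ k ∈ A, ((m k + 1).choose 2 : ℤ) := by exact_mod_cast hsuT
      rw [e1, e2, hW0]
      ring
    · -- the area of the first points
      have e1 : ∑ c ∈ range N0, T (m' c) + ∑ k ∈ Cl, (m k + 1).choose 2 =
          ∑ k ∈ A, (m k + 1).choose 2 := by
        rw [← hsum1]
        simp only [hch]
      have e2 : (∑ k ∈ A, (m k + 1).choose 2 : ℕ) ≤ (triZ d h).card + 2 * h := by
        have e3 : W0 = ((triZ d h).card : ℤ) - ((∑ k ∈ A, (m k + 1).choose 2 : ℕ) : ℤ) := by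
          rw [hW0]; push_cast; rfl
        have e4 : -W0 ≤ |W0| := neg_le_abs _
        rw [hW] at e4
        have e5 : (W : ℤ) ≤ 2 * h := by exact_mod_cast hW2
        omega
      have e3 : ∑ z ∈ range h, (lam + 1 + z) ≤
          ∑ z ∈ range (h - 60 * M), (lam + 1 + z) + 60 * M * (d + 1) := by
        have e4 : ∑ z ∈ range h, (lam + 1 + z) = ∑ z ∈ range (h - 60 * M), (lam + 1 + z) +
            ∑ z ∈ Ico (h - 60 * M) h, (lam + 1 + z) := by
          rw [sum_range_add_sum_Ico _ (by omega)]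
        rw [e4]
        have e5 : ∑ z ∈ Ico (h - 60 * M) h, (lam + 1 + z) ≤
            ∑ _z ∈ Ico (h - 60 * M) h, (d + 1) := by
          apply sum_le_sum
          intro z hz
          rw [mem_Ico] at hz
          omega
        rw [sum_const, Nat.card_Ico, smul_eq_mul, show h - (h - 60 * M) = 60 * M by omega] at e5
        omega
      rw [hcells] at e3
      have e6 : 62 * M * (d + 1) = 60 * M * (d + 1) + 2 * (M * (d + 1)) := by ring
      have e7 : 2 * h < 2 * (M * (d + 1)) := by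
        have : h < M * (d + 1) := by
          have : 2 * h ≤ M * (d + 1) := by
            have : 2 ≤ M := by omega
            calc 2 * h ≤ 2 * (d + 1) := by omega
              _ ≤ M * (d + 1) := by gcongr
          omega
        omega
      omega
  obtain ⟨τ, κ2, x2, rp⟩ := hR2 m' ms M μ δ h N0 N K b l Lg q v lam W0 su
  obtain ⟨vh, vp⟩ := hVA m' ms M μ δ h N0 N K b l Lg q v lam τ W0 κ2 x2 su rp
  set N1 := aa κ2 x2 (h - 56 * μ) with hN1
  obtain ⟨κ, x, e, P, s, E, play, grp, agr, hfin⟩ :=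
    hG μ δ h (N - N1) K b l Lg q v τ w W0 ms _ _ _ vp su.spec hvw h4w hw1
      (by rw [hW]; exact_mod_cast hw2) (by rw [hW]; exact_mod_cast hw3)
  have hJs := grp.Js
  have hsR := grp.sR
  have hts := grp.ts
  obtain ⟨hplay, hBT1, hBT2⟩ := hBT m' μ δ h N N1 (κ2 τ) τ s κ2 x2 κ x vh hJs hsR play agr
  set κ' := bk s N1 κ2 κ with hκ'
  set x' := bx m' μ s N1 (N - N1) x2 κ x with hx'
  have hk' : ∀ y < s, κ' y = κ2 y := by
    intro y hy
    simp only [hκ', bk]
    rw [if_pos hy]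
  have hx2' : ∀ y < s, x' y = x2 y := by
    intro y hy
    simp only [hx', bx]
    rw [if_pos hy]
  obtain ⟨⟨g0, -⟩, -⟩ := hUG μ δ h K τ s E ms e P grp
  have hT := hTr m' ms μ δ d h N K τ s E κ' x' e P (by omega) hhd vh.m1 hplay grp (by
      intro t ht1 ht2
      have e1 := rp.pa t ht1 (by omega)
      rw [hk' t ht2, hk' τ (by omega), hx2' t ht2]
      exact e1) (by
      rw [hk' τ (by omega), hk' (τ - 1) (by omega)]
      exact rp.g1) (by
      rw [hk' τ (by omega)]
      exact rp.g2)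
  obtain ⟨hT1, hT2⟩ := hT
  have hvl1 : ∀ z < τ, uz m' h N κ' x' z + uV h K τ s ms e P z = d + 2 - h + z := by
    intro z hz
    rw [hBT1 z hz, rp.ex z hz, g0 z hz]
    omega
  have hvl2 : ∀ z, τ ≤ z → vl m' μ h N1 (κ2 τ) N lam τ κ2 x2 z =
      lam + 1 + z + vd m' μ h (κ2 τ) N z := by
    intro z hz
    unfold vl
    rw [if_neg (by omega)]
  have hcast : ((∑ k ∈ A, (m k + 1).choose 2 : ℕ) : ℤ) = ∑ k ∈ A, ((m k + 1).choose 2 : ℤ) := by
    push_cast; rfl
  rcases hfin with ⟨f1, f2⟩ | ⟨f1, f2⟩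
  · left
    refine ⟨?_, (htr _).2 (hT2 ?_)⟩
    · omega
    · intro z hz
      rcases Nat.lt_or_ge z τ with h3 | h3
      · exact (hvl1 z h3).le
      · have e1 := f2 z hz
        rw [hvl2 z h3, hBT2 z h3 hz] at e1
        omega
  · right
    refine ⟨?_, (htr _).1 (hT1 ?_)⟩
    · omega
    · intro z hz
      rcases Nat.lt_or_ge z τ with h3 | h3
      · exact (hvl1 z h3).ge
      · have e1 := f2 z hz
        rw [hvl2 z h3, hBT2 z h3 hz] at e1
        omega

end Pool.Agent.Helper18.UW
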