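import Mathlib
import Pool.Agent.Helper18.EW.Final
import Pool.Agent.Helper18.SG.Main2
import Pool.Agent.Helper18.UW.GameV
import Pool.Agent.Helper18.UW.FU
import Pool.Agent.Helper51.UW.Z9t
import Pool.Agent.Helper56.UW.Z10at
import Pool.Agent.Helper24.UW.Z10bt
import Pool.Agent.Helper49.UW.Z10t
import Pool.Agent.Helper75.UW.Z15t
import Pool.Agent.Helper34.UW.E8av
import Pool.Agent.Helper87.UW.E8bv
import Pool.Agent.Helper31.UW.GA4
import Pool.Agent.Helper59.UW.GE4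
import Pool.Agent.Helper46.UW.UG
import Pool.Agent.Helper20.UW.G7u
import Pool.Agent.Helper50.UW.G8u
import Pool.Agent.Helper19.UW.E13v
import Pool.Agent.Helper83.UW.E14v
import Pool.Agent.Helper55.UW.Xf
import Pool.Agent.Helper32.UW.Red
import Pool.Agent.Helper75.UW.UFin
import Pool.Agent.Helper35.UW.Pig
import Pool.Agent.Helper35.UW.MV
import Pool.Agent.Helper56.UW.SELa
import Pool.Agent.Helper16.UW.SELb
import Pool.Agent.Helper95.UW.SEL
import Pool.Agent.Helper93.UW.CI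
import Pool.Agent.Helper40.UW.D2
import Pool.Agent.Helper50.UW.E1w
import Pool.Agent.Helper7.UW.E2w
import Pool.Agent.Helper19.UW.TL
import Pool.Agent.Helper9.UW.BX
import Pool.Agent.Helper87.UW.CII
import Pool.Agent.Helper94.UW.U1
import Pool.Agent.Helper79.UW.U4
import Pool.Agent.Helper12.UW.UC
import Pool.Agent.Helper87.UW.R1
import Pool.Agent.Helper31.UW.R6a
import Pool.Agent.Helper65.UW.R6d
import Pool.Agent.Helper75.UW.R6e
import Pool.Agent.Helper34.UW.R2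
import Pool.Agent.Helper40.UW.V1
import Pool.Agent.Helper13.UW.V2
import Pool.Agent.Helper51.UW.V0
import Pool.Agent.Helper69.UW.V3s
import Pool.Agent.Helper16.UW.V3d
import Pool.Agent.Helper62.UW.V3u
import Pool.Agent.Helper81.UW.VA
import Pool.Agent.Helper73.UW.BT
import Pool.Agent.Helper67.UW.PGu
import Pool.Agent.Helper49.UW.TriU
import Pool.Agent.Helper34.UW.NU
import Pool.Agent.Helper55.UW.RL

/-! Project UW: assembly. -/

set_option autoImplicit false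

namespace Pool.Agent.Helper18.UW

open Finset
open Pool.Agent.Helper18.EW (gH1 gH2 gH4 gE3 gG1 gG2 gG5 gE12 gZ8 gZ12 gPA gF1Z gGLc goalZ11)

theorem gZ9t : GoalZ9t := Pool.Agent.Helper51.UW.goalZ9t gH4
theorem gZ10at : GoalZ10at := Pool.Agent.Helper56.UW.goalZ10at gZ8 gZ9t
theorem gZ10bt : GoalZ10bt := Pool.Agent.Helper24.UW.goalZ10bt gH1 gH4
theorem gZ10t : GoalZ10t := Pool.Agent.Helper49.UW.goalZ10t gE3 gZ10at gZ10bt
theorem gZ15t : GoalZ15t := Pool.Agent.Helper75.UW.goalZ15t gZ10t gZ10at gZ10bt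
  (goalZ11 gH1 gH2 gE3 gH4) gZ12
theorem gE8av : GoalE8av := Pool.Agent.Helper34.UW.goalE8av
theorem gE8bv : GoalE8bv := Pool.Agent.Helper87.UW.goalE8bv gE3 gE8av
theorem gGE4 : GoalGE4 := Pool.Agent.Helper59.UW.goalGE4 Pool.Agent.Helper31.UW.goalGA4
theorem gUG : GoalUG := Pool.Agent.Helper46.UW.goalUG gG2 gG5
theorem gG8u : GoalG8u := Pool.Agent.Helper50.UW.goalG8u gG1
theorem gE13v : GoalE13v := Pool.Agent.Helper19.UW.goalE13v gUG Pool.Agent.Helper20.UW.goalG7u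
theorem gE14v : GoalE14v := Pool.Agent.Helper83.UW.goalE14v gG8u
theorem gGameV : GoalGameV := goalGameV gH1 gE8av gE8bv gGE4 gUG gE12 gE13v gE14v
  Pool.Agent.Helper55.UW.goalXf gZ15t
theorem gU1 : GoalU1 := Pool.Agent.Helper94.UW.goalU1 gH2
theorem gU4 : GoalU4 := Pool.Agent.Helper79.UW.goalU4 gU1
theorem gR1 : GoalR1 := Pool.Agent.Helper87.UW.goalR1 gU1 gU4 Pool.Agent.Helper12.UW.goalUC
theorem gR6a : GoalR6a := Pool.Agent.Helper31.UW.goalR6a gU1
theorem gR6d : GoalR6d := Pool.Agent.Helper65.UW.goalR6d gU1 gU4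
theorem gR6e : GoalR6e := Pool.Agent.Helper75.UW.goalR6e gU4 gR6a
theorem gR2 : GoalR2 := Pool.Agent.Helper34.UW.goalR2 gU1 Pool.Agent.Helper12.UW.goalUC gR1 gR6d
theorem gV1 : GoalV1 := Pool.Agent.Helper40.UW.V1.goalV1 gU1
theorem gV2 : GoalV2 := Pool.Agent.Helper13.UW.goalV2 gV1 gH1 gH2
theorem gV0 : GoalV0 := Pool.Agent.Helper51.UW.goalV0 gU1 gR6d
theorem gV3s : GoalV3s := Pool.Agent.Helper69.UW.goalV3s gV2 gR6e
theorem gV3d : GoalV3d := Pool.Agent.Helper16.UW.goalV3d gU1 gV1 gR6d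
theorem gV3u : GoalV3u := Pool.Agent.Helper62.UW.goalV3u gU1
theorem gVA : GoalVA := Pool.Agent.Helper81.UW.goalVA gU1 gV0 gV1 gV2 gV3s gV3d gV3u gR6a
theorem gBT : GoalBT := Pool.Agent.Helper73.UW.goalBT gV1
theorem gTriU : TriUc := Pool.Agent.Helper49.UW.goalTriU Pool.Agent.Helper18.SG.gA2
  (Pool.Agent.Helper67.UW.goalPGu gPA) gU1 gUG
theorem gFU : FUc := goalFU Pool.Agent.Helper55.UW.goalRL Pool.Agent.Helper34.UW.goalNU gUG gR2 gVA
  gGameV gBT gTriU gF1Z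
theorem gSEL : SELc := Pool.Agent.Helper95.UW.goalSEL Pool.Agent.Helper35.UW.goalMV
  Pool.Agent.Helper56.UW.goalSELa Pool.Agent.Helper16.UW.goalSELb
theorem gCI : CaseI := Pool.Agent.Helper93.UW.goalCI gFU gSEL gGLc gF1Z
theorem gE1w : GoalE1w := Pool.Agent.Helper50.UW.goalE1w Pool.Agent.Helper43.Gm.PkB.goalB
  Pool.Agent.Helper43.Gm.PkC.goalC Pool.Agent.Helper40.UW.goalD2
theorem gE2w : GoalE2w := Pool.Agent.Helper7.UW.goalE2w Pool.Agent.Helper40.UW.goalD2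
theorem gTL : TLc := Pool.Agent.Helper19.UW.goalTL gE1w gE2w
theorem gBX : BXc := Pool.Agent.Helper9.UW.goalBX Pool.Agent.Helper18.SG.gQK
  Pool.Agent.Helper18.SG.gGI
theorem gCII : CaseII := Pool.Agent.Helper87.UW.goalCII gTL gBX gGLc gF1Z
theorem gCore : CoreC := core_of Pool.Agent.Helper35.UW.goalPig gCI gCII

/-- the expected dimension for all systems of large degree, with explicit constants -/
theorem main_ok : ∀ (s : ℕ) (m : ℕ → ℕ) (d : ℕ), Antitone m → (∀ i, s ≤ i → m i = 0) →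
    2 ^ 400 * lg (m 0) ^ 3 * m 0 ≤ d →
    OkU (Pool.Agent.Lead.Sh.triD 0 d) m (range s) :=
  Pool.Agent.Helper32.UW.goalRed gCore

/-- the main theorem -/
theorem main_all : ∃ C : ℝ, 0 < C ∧ ∀ (s : ℕ) (m : ℕ → ℕ) (d : ℕ), Antitone m →
    (∀ i, s ≤ i → m i = 0) → C * m 0 * (1 + Real.log (m 0)) ^ 3 ≤ d →
    ∃ G : MvPolynomial (Fin s × Fin 3) ℂ, G ≠ 0 ∧
      ∀ P : Fin s → Fin 3 → ℂ, (∀ i, P i ≠ 0) →
        MvPolynomial.eval (fun ij : Fin s × Fin 3 => P ij.1 ij.2) G ≠ 0 →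
        (Module.finrank ℂ
          (↥(MvPolynomial.homogeneousSubmodule (Fin 3) ℂ d ⊓
            ⨅ i : Fin s, Submodule.restrictScalars ℂ
              ((Ideal.span {g : MvPolynomial (Fin 3) ℂ |
                  g.IsHomogeneous 1 ∧ MvPolynomial.eval (P i) g = 0}) ^ (m (i : ℕ))
                : Ideal (MvPolynomial (Fin 3) ℂ)))) : ℤ)
          = max ((Nat.choose (d + 2) 2 : ℤ) -
              ∑ i : Fin s, (Nat.choose (m (i : ℕ) + 1) 2 : ℤ)) 0 :=
  Pool.Agent.Helper75.UW.goalUFin main_ok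

end Pool.Agent.Helper18.UW
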