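import Mathlib
import Pool.Agent.Helper18.UW.Main
import Pool.Agent.Helper75.UW.UFin
import Pool.Agent.Lead.RwMain

/-! Project UW: the final theorem, with the alternative of enough points. -/

set_option autoImplicit false

namespace Pool.Agent.Helper18.UW

open Finset
open Pool.Agent.Lead.Sh

/-- the constant is hidden -/
theorem main_K : ∃ K : ℕ, 4 ≤ K ∧ ∀ (s : ℕ) (m : ℕ → ℕ) (d : ℕ), Antitone m →
    (∀ i, s ≤ i → m i = 0) → K * lg (m 0) ^ 3 * m 0 ≤ d → OkU (triD 0 d) m (range s) := by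
  refine ⟨2 ^ 400, ?_, main_ok⟩
  calc 4 = 2 ^ 2 := by norm_num
    _ ≤ 2 ^ 400 := Nat.pow_le_pow_right (by norm_num) (by norm_num)

theorem choose_lt {D : ℕ} (h : 4 ≤ D) : (D + 2).choose 2 < D ^ 2 := by
  have h1 : (D + 1 + 1).choose 2 = Pool.Agent.Helper43.Hw.T (D + 1) :=
    (Pool.Agent.Helper43.Hw.T_choose (D + 1)).symm
  have h2 := Pool.Agent.Helper43.Hw.two_T (D + 1)
  rw [show D + 2 = D + 1 + 1 by ring, h1]
  nlinarith

theorem main_ok2 {K : ℕ} (hK : 4 ≤ K) (hmain : ∀ (s : ℕ) (m : ℕ → ℕ) (d : ℕ), Antitone m →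
    (∀ i, s ≤ i → m i = 0) → K * lg (m 0) ^ 3 * m 0 ≤ d → OkU (triD 0 d) m (range s))
    (s : ℕ) (m : ℕ → ℕ) (d : ℕ) (hm : Antitone m) (hz : ∀ i, s ≤ i → m i = 0)
    (h : K * lg (m 0) ^ 3 * m 0 ≤ d ∨
      (K * lg (m 0) ^ 3 * m 0) ^ 2 ≤ ∑ k ∈ range s, (m k + 1).choose 2) :
    OkU (triD 0 d) m (range s) := by
  have hok0 := hmain s m (K * lg (m 0) ^ 3 * m 0) hm hz le_rfl
  have hbig : 0 < K * lg (m 0) ^ 3 * m 0 → 4 ≤ K * lg (m 0) ^ 3 * m 0 := by
    intro h3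
    have h4 : 1 ≤ lg (m 0) ^ 3 * m 0 := by
      rcases Nat.eq_zero_or_pos (lg (m 0) ^ 3 * m 0) with h5 | h5
      · rw [mul_assoc, h5, mul_zero] at h3
        exact absurd h3 (lt_irrefl _)
      · exact h5
    calc 4 = 4 * 1 := by norm_num
      _ ≤ K * (lg (m 0) ^ 3 * m 0) := Nat.mul_le_mul hK h4
      _ = K * lg (m 0) ^ 3 * m 0 := by ring
  rcases Nat.lt_or_ge d (K * lg (m 0) ^ 3 * m 0) with hlt | hge
  · have h2 : (K * lg (m 0) ^ 3 * m 0) ^ 2 ≤ ∑ k ∈ range s, (m k + 1).choose 2 :=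
      h.resolve_left (not_le.2 hlt)
    generalize K * lg (m 0) ^ 3 * m 0 = D0 at *
    have hb : 4 ≤ D0 := hbig (by omega)
    have hcard : (triD 0 D0).card = (D0 + 2).choose 2 := card_triD D0
    have hch := choose_lt hb
    have hinj : Inj (triD 0 D0) (rows m (range s)) := by
      rcases hok0 with h3 | h3
      · exfalso
        have := h3.1
        rw [hcard] at this
        omega
      · exact h3.2
    right
    have hsub : triD 0 d ⊆ triD 0 D0 := by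
      intro x hx
      simp only [triD, mem_filter, mem_product, mem_range] at hx ⊢
      omega
    refine ⟨?_, hinj.mono hsub subset_rfl⟩
    calc (triD 0 d).card ≤ (triD 0 D0).card := card_le_card hsub
      _ ≤ D0 ^ 2 := by rw [hcard]; exact hch.le
      _ ≤ _ := h2
  · exact hmain s m d hm hz hge

/-- **Main theorem of project UW.** -/
theorem main_every : ∃ C : ℝ, 0 < C ∧ ∀ (s : ℕ) (m : ℕ → ℕ) (d : ℕ), Antitone m →
    (∀ i, s ≤ i → m i = 0) →
    (C * m 0 * (1 + Real.log (m 0)) ^ 3 ≤ d ∨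
      C * (m 0) ^ 2 * (1 + Real.log (m 0)) ^ 6 ≤ ∑ i ∈ range s, (m i : ℝ) ^ 2) →
    ∃ G : MvPolynomial (Fin s × Fin 3) ℂ, G ≠ 0 ∧
      ∀ P : Fin s → Fin 3 → ℂ, (∀ i, P i ≠ 0) →
        MvPolynomial.eval (fun ij : Fin s × Fin 3 => P ij.1 ij.2) G ≠ 0 →
        (Module.finrank ℂ
          (↥(MvPolynomial.homogeneousSubmodule (Fin 3) ℂ d ⊓
            ⨅ i : Fin s, Submodule.restrictScalars ℂ
              ((Ideal.span {g : MvPolynomial (Fin 3) ℂ |
                  g.IsHomogeneous 1 ∧ MvPolynomial.eval (P i) g = 0}) ^ (m (i : ℕ))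
                : Ideal (MvPolynomial (Fin 3) ℂ)))) : ℤ)
          = max ((Nat.choose (d + 2) 2 : ℤ) -
              ∑ i : Fin s, (Nat.choose (m (i : ℕ) + 1) 2 : ℤ)) 0 := by
  obtain ⟨K, hK, hmain⟩ := main_K
  have hK0 : (4 : ℝ) ≤ K := by exact_mod_cast hK
  refine ⟨2 * (K * 1000) ^ 2, by positivity, ?_⟩
  intro s m d hm hz hd
  have hlog : 0 ≤ Real.log (m 0) := Real.log_natCast_nonneg _
  have hB0 : (0 : ℝ) ≤ K * 1000 * (m 0 : ℝ) * (1 + Real.log (m 0)) ^ 3 := by positivity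
  have key : ((K * lg (m 0) ^ 3 * m 0 : ℕ) : ℝ) ≤
      K * 1000 * (m 0 : ℝ) * (1 + Real.log (m 0)) ^ 3 := by
    rcases Nat.eq_zero_or_pos (m 0) with h0 | h0
    · rw [h0]; simp
    · have h1 := Pool.Agent.Helper75.UW.lg_le h0
      have h2 : ((lg (m 0) : ℝ)) ^ 3 ≤ (10 * (1 + Real.log (m 0))) ^ 3 :=
        pow_le_pow_left₀ (Nat.cast_nonneg _) h1 3
      rw [Nat.cast_mul, Nat.cast_mul, Nat.cast_pow]
      calc (K : ℝ) * (lg (m 0) : ℝ) ^ 3 * (m 0 : ℝ)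
          ≤ K * (10 * (1 + Real.log (m 0))) ^ 3 * (m 0 : ℝ) :=
            mul_le_mul_of_nonneg_right (mul_le_mul_of_nonneg_left h2 (by positivity))
              (Nat.cast_nonneg _)
        _ = K * 1000 * (m 0 : ℝ) * (1 + Real.log (m 0)) ^ 3 := by ring
  have hnat : K * lg (m 0) ^ 3 * m 0 ≤ d ∨
      (K * lg (m 0) ^ 3 * m 0) ^ 2 ≤ ∑ k ∈ range s, (m k + 1).choose 2 := by
    generalize K * lg (m 0) ^ 3 * m 0 = D0 at *
    rcases hd with hd | hd
    · left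
      have h1 : (D0 : ℝ) ≤ d := by
        refine key.trans (le_trans ?_ hd)
        have h2 : (0 : ℝ) ≤ m 0 * (1 + Real.log (m 0)) ^ 3 := by positivity
        have h3 : (K : ℝ) * 1000 ≤ 2 * (K * 1000) ^ 2 := by nlinarith
        calc K * 1000 * (m 0 : ℝ) * (1 + Real.log (m 0)) ^ 3
            = (K * 1000) * (m 0 * (1 + Real.log (m 0)) ^ 3) := by ring
          _ ≤ 2 * (K * 1000) ^ 2 * (m 0 * (1 + Real.log (m 0)) ^ 3) :=
              mul_le_mul_of_nonneg_right h3 h2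
          _ = 2 * (K * 1000) ^ 2 * m 0 * (1 + Real.log (m 0)) ^ 3 := by ring
      exact_mod_cast h1
    · right
      have h3 : (D0 : ℝ) ^ 2 ≤ (K * 1000 * (m 0 : ℝ) * (1 + Real.log (m 0)) ^ 3) ^ 2 :=
        pow_le_pow_left₀ (Nat.cast_nonneg _) key 2
      have h4 : ∀ k : ℕ, (m k : ℝ) ^ 2 ≤ 2 * (((m k + 1).choose 2 : ℕ) : ℝ) := by
        intro k
        have h5 : m k ^ 2 ≤ 2 * (m k + 1).choose 2 := by
          rw [← Pool.Agent.Helper43.Hw.T_choose, Pool.Agent.Helper43.Hw.two_T]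
          nlinarith
        exact_mod_cast h5
      have h6 : ∑ i ∈ range s, (m i : ℝ) ^ 2 ≤
          2 * ((∑ k ∈ range s, (m k + 1).choose 2 : ℕ) : ℝ) := by
        rw [Nat.cast_sum, mul_sum]
        exact sum_le_sum (fun i _ => h4 i)
      have h7 := hd.trans h6
      have h8 : 2 * (K * 1000) ^ 2 * (m 0 : ℝ) ^ 2 * (1 + Real.log (m 0)) ^ 6 =
          2 * (K * 1000 * (m 0 : ℝ) * (1 + Real.log (m 0)) ^ 3) ^ 2 := by ring
      rw [h8] at h7
      have h9 : (D0 : ℝ) ^ 2 ≤ ((∑ k ∈ range s, (m k + 1).choose 2 : ℕ) : ℝ) := by linarith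
      exact_mod_cast h9
  have hok := main_ok2 hK hmain s m d hm hz hnat
  have hcard : (triD 0 d).card = (d + 2).choose 2 := card_triD d
  unfold OkU at hok
  rw [hcard] at hok
  exact Pool.Agent.Lead.Rw.concl s m d hok

end Pool.Agent.Helper18.UW
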